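import Pool.Agent.Work.MP_7ec17a_gt_R.Main
import Pool.Agent.Work.MP_7ec17a_gt_T.Arcs

/-!
# From half-tangents to a configuration; both orientations
-/

set_option autoImplicit false

open Set Filter Topology

namespace Pool.MP_7ec17a_gt.R

open Pool.MP_7ec17a_gt.T

/-- Unit vectors at distance at least `ε` and at most a right angle apart have a large cross
product. -/
lemma cr_ge' {e x : ℂ} (he : ‖e‖ = 1) (hx : ‖x‖ = 1) (hdt : 0 ≤ dt e x) {ε : ℝ} (hε : 0 < ε)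
    (h : ε ≤ ‖x - e‖) : ε / 2 ≤ |cr e x| := by
  have h1 := sq_add_sq he x
  rw [hx] at h1
  have es := e_sq he
  have xs := e_sq hx
  have h2 : ‖x - e‖ ^ 2 = 2 - 2 * dt e x := by
    rw [← Complex.normSq_eq_norm_sq, Complex.normSq_apply]
    simp only [dt, Complex.sub_re, Complex.sub_im]
    nlinarith
  have h3 : ε ^ 2 ≤ ‖x - e‖ ^ 2 := pow_le_pow_left₀ hε.le h 2
  have h4 : (ε / 2) ^ 2 ≤ cr e x ^ 2 := by nlinarith [sq_nonneg (dt e x)]
  have h5 := sq_le_sq.1 h4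
  rwa [abs_of_pos (by positivity)] at h5

/-- The one-sided thin cone around a half-tangent. -/
lemma thin' {b : ℝ → ℂ} {e : ℂ}
    {l : Filter ℝ} (hl : ∀ P : ℝ → Prop, (∀ᶠ t in l, P t) → ∃ ρ : ℝ, 0 < ρ ∧
      ∀ t, ‖b t‖ < ρ → P t ∨ b t = 0)
    (he : Tendsto (fun t => b t / (‖b t‖ : ℂ)) l (𝓝 e)) (he1 : ‖e‖ = 1) :
    ∀ c : ℝ, 0 < c → ∃ ρ : ℝ, 0 < ρ ∧ ∀ t, ‖b t‖ < ρ →
      |cr e (b t)| ≤ c * ‖b t‖ ∧ 0 ≤ dt e (b t) := by
  intro c hc
  have hev : ∀ᶠ t in l, ‖b t / (‖b t‖ : ℂ) - e‖ < min c 1 := by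
    have := he.sub_const e
    rw [sub_self] at this
    have := this.norm
    rw [norm_zero] at this
    exact this.eventually (gt_mem_nhds (lt_min hc one_pos))
  obtain ⟨ρ, hρ0, hρ⟩ := hl _ hev
  refine ⟨ρ, hρ0, fun t ht => ?_⟩
  by_cases hz : b t = 0
  · rw [hz]; simp [cr, dt]
  · have h1 := (hρ t ht).resolve_right hz
    have h1c : ‖b t / (‖b t‖ : ℂ) - e‖ ≤ c := h1.le.trans (min_le_left _ _)
    have h11 : ‖b t / (‖b t‖ : ℂ) - e‖ ≤ 1 := h1.le.trans (min_le_right _ _)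
    have h2 : cr e (b t) = ‖b t‖ * cr e (b t / (‖b t‖ : ℂ) - e) := by
      nth_rewrite 1 [eq_norm_smul hz]
      rw [cr_smul, cr_sub]
      have : cr e e = 0 := by simp only [cr]; ring
      rw [this, sub_zero]
    have h3 : dt e (b t) = ‖b t‖ * (1 + dt e (b t / (‖b t‖ : ℂ) - e)) := by
      nth_rewrite 1 [eq_norm_smul hz]
      rw [dt_smul, dt_sub]
      have : dt e e = 1 := by simp only [dt]; exact e_sq he1
      rw [this]; ring
    constructor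
    · rw [h2, abs_mul, abs_norm, mul_comm]
      exact mul_le_mul_of_nonneg_right ((abs_cr_le he1 _).trans h1c) (norm_nonneg _)
    · rw [h3]
      refine mul_nonneg (norm_nonneg _) ?_
      have := (abs_le.1 ((abs_dt_le he1 (b t / (‖b t‖ : ℂ) - e)).trans h11)).1
      linarith

namespace Cfg

/-- Half-tangent data from limits. -/
theorem exists_loc (C : Cfg) (hβ0 : ∀ t ∈ Ioc (0 : ℝ) 1, C.β t ≠ 0) {e : ℂ}
    (he : Tendsto (fun t => C.β t / (‖C.β t‖ : ℂ)) (𝓝[>] 0) (𝓝 e))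
    (hα : ∃ ε : ℝ, 0 < ε ∧ ∀ᶠ s in 𝓝[>] (0 : ℝ), ε ≤ ‖C.α s / (‖C.α s‖ : ℂ) - e‖) :
    ∃ D : C.Loc, D.e = e := by
  have ev0 : ∀ᶠ t in 𝓝[>] (0 : ℝ), t ∈ Ioc (0 : ℝ) 1 := Ioc_mem_nhdsGT one_pos
  have he1 : ‖e‖ = 1 := by
    have h1 := he.norm
    have h2 : Tendsto (fun t => ‖C.β t / (‖C.β t‖ : ℂ)‖) (𝓝[>] 0) (𝓝 1) := by
      refine tendsto_const_nhds.congr' ?_
      filter_upwards [ev0] with t ht
      exact (norm_div_norm (hβ0 t ht)).symm
    exact tendsto_nhds_unique h1 h2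
  have her : 0 ≤ e.re := by
    refine ge_of_tendsto ((Complex.continuous_re.tendsto e).comp he) ?_
    filter_upwards with t
    change 0 ≤ (C.β t / (‖C.β t‖ : ℂ)).re
    rw [Complex.div_ofReal_re]
    exact div_nonneg (C.β_re t).1 (norm_nonneg _)
  have hd : ∀ s, 0 ≤ dt e (C.α s) := by
    intro s
    have hc : Continuous fun z : ℂ => dt z (C.α s) := by unfold dt; fun_prop
    refine ge_of_tendsto ((hc.tendsto e).comp he) ?_
    filter_upwards with t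
    change 0 ≤ dt (C.β t / (‖C.β t‖ : ℂ)) (C.α s)
    have h1 := C.R0 s t
    have h2 : dt (C.β t / (‖C.β t‖ : ℂ)) (C.α s) = dt (C.α s) (C.β t) / ‖C.β t‖ := by
      simp only [dt, Complex.div_ofReal_re, Complex.div_ofReal_im]; ring
    rw [h2]
    exact div_nonneg h1 (norm_nonneg _)
  have TA := thin' (l := 𝓝[>] (0 : ℝ)) (e := e)
    (fun P hP => param0 C.hβ C.β0 (fun s hs => by rw [C.β1 s hs, C.β1 1 le_rfl]) hβ0 P hP) he he1
  obtain ⟨ε, hε, hev⟩ := hα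
  obtain ⟨u, hu, hu'⟩ := mem_nhdsGT_iff_exists_Ioo_subset.1 (hev.and ev0)
  have hu0 : (0 : ℝ) < u := hu
  refine ⟨⟨e, he1, her, hd, TA, ε / 2, by positivity, min (u / 2) 1,
    ⟨lt_min (by positivity) one_pos, min_le_right _ _⟩, fun s hs => ?_⟩, rfl⟩
  rcases hs.1.lt_or_eq with h | h
  · obtain ⟨h1, h2⟩ := hu' ⟨h, lt_of_le_of_lt (hs.2.trans (min_le_left _ _)) (by linarith)⟩
    have hz := C.α_ne_zero h2.1 h2.2
    set x := C.α s / (‖C.α s‖ : ℂ) with hx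
    have hx1 : ‖x‖ = 1 := norm_div_norm hz
    have hdx : 0 ≤ dt e x := by
      have h3 : dt e x = dt e (C.α s) / ‖C.α s‖ := by
        rw [hx]
        simp only [dt, Complex.div_ofReal_re, Complex.div_ofReal_im]; ring
      rw [h3]
      exact div_nonneg (hd s) (norm_nonneg _)
    have key := cr_ge' he1 hx1 hdx hε h1
    have e3 : cr e (C.α s) = ‖C.α s‖ * cr e x := by
      nth_rewrite 1 [eq_norm_smul hz]
      rw [cr_smul]
    rw [e3, abs_mul, abs_norm, mul_comm]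
    exact mul_le_mul_of_nonneg_left key (norm_nonneg _)
  · rw [← h, C.α0 0 le_rfl]; simp [cr]

/-- The theorem when the lower arc starts below. -/
theorem core_low (C : Cfg) (hβi : InjOn C.β (Icc 0 1)) {e f : ℂ}
    (he : Tendsto (fun t => C.β t / (‖C.β t‖ : ℂ)) (𝓝[>] 0) (𝓝 e))
    (hLA : ∃ ε : ℝ, 0 < ε ∧ ∀ᶠ s in 𝓝[>] (0 : ℝ), ε ≤ ‖C.α s / (‖C.α s‖ : ℂ) - e‖)
    (hf : Tendsto (fun t => (C.β t - C.ℓ) / (‖C.β t - C.ℓ‖ : ℂ)) (𝓝[<] 1) (𝓝 f))
    (hLB : ∃ ε : ℝ, 0 < ε ∧ ∀ᶠ s in 𝓝[<] (1 : ℝ),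
      ε ≤ ‖(C.α s - C.ℓ) / (‖C.α s - C.ℓ‖ : ℂ) - f‖)
    (hsgn : ∃ s1 ∈ Ioc (0 : ℝ) 1, ∀ s ∈ Ioc 0 s1, cr e (C.α s) < 0)
    {r : ℝ} (hr : 0 < r) : ∃ s ∈ Icc (0 : ℝ) 1, ∃ s' ∈ Icc (0 : ℝ) 1, s < s' ∧
      C.α s + rot r (C.α s' - C.α s) ∈ range C.β ∧
      C.α s' + rot r (C.α s' - C.α s) ∈ range C.β := by
  have bne0 : ∀ t ∈ Ioc (0 : ℝ) 1, C.β t ≠ 0 := by
    intro t ht h
    have : C.β t = C.β 0 := by rw [h, C.β0 0 le_rfl]
    have := hβi ⟨ht.1.le, ht.2⟩ ⟨le_rfl, zero_le_one⟩ this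
    linarith [ht.1]
  obtain ⟨D, hD⟩ := C.exists_loc bne0 he hLA
  have hB : D.Below := by
    obtain ⟨s1, hs1, h1⟩ := D.LA
    obtain ⟨s2, hs2, h2⟩ := hsgn
    refine ⟨min s1 s2, ⟨lt_min hs1.1 hs2.1, (min_le_left _ _).trans hs1.2⟩, fun s hs => ?_⟩
    rcases hs.1.lt_or_eq with h | h
    · have h3 := h1 s ⟨hs.1, hs.2.trans (min_le_left _ _)⟩
      have h4 := h2 s ⟨h, hs.2.trans (min_le_right _ _)⟩
      rw [hD] at h3 ⊢
      rw [abs_of_neg h4] at h3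
      linarith
    · rw [← h, C.α0 0 le_rfl]; simp [cr]
  -- the other end
  have hconj : ∀ z : ℂ, flip C.ℓ z = -(starRingEnd ℂ) (z - C.ℓ) := fun z => by
    simp [flip]
  have hnorm : ∀ z : ℂ, ‖flip C.ℓ z‖ = ‖z - C.ℓ‖ := fun z => by
    rw [hconj, norm_neg, Complex.norm_conj]
  have hquot : ∀ z : ℂ, flip C.ℓ z / (‖flip C.ℓ z‖ : ℂ) =
      -(starRingEnd ℂ) ((z - C.ℓ) / (‖z - C.ℓ‖ : ℂ)) := fun z => by
    rw [hnorm, hconj, map_div₀, Complex.conj_ofReal, neg_div]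
  have h1m : Tendsto (fun t : ℝ => 1 - t) (𝓝[>] 0) (𝓝[<] 1) := by
    refine tendsto_nhdsWithin_of_tendsto_nhds_of_eventually_within _ ?_ ?_
    · have : Tendsto (fun t : ℝ => 1 - t) (𝓝 0) (𝓝 (1 - 0)) :=
        (continuous_const.sub continuous_id).tendsto 0
      rw [sub_zero] at this
      exact this.mono_left nhdsWithin_le_nhds
    · filter_upwards [self_mem_nhdsWithin] with t ht
      have : (0 : ℝ) < t := ht
      change 1 - t < 1
      linarith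
  obtain ⟨D', -⟩ := C.refl.exists_loc (e := -(starRingEnd ℂ) f) (by
      intro t ht h
      have h1 : flip C.ℓ (C.β (1 - t)) = 0 := h
      have h2 : C.β (1 - t) = C.ℓ := by
        rw [← flip_flip C.ℓ (C.β (1 - t)), h1, flip_zero]
      have : C.β (1 - t) = C.β 1 := by rw [h2, C.β1 1 le_rfl]
      have := hβi ⟨by linarith [ht.2], by linarith [ht.1]⟩ ⟨zero_le_one, le_rfl⟩ this
      linarith [ht.1]) (by
      have h2 : Tendsto (fun z : ℂ => -(starRingEnd ℂ) z) (𝓝 f) (𝓝 (-(starRingEnd ℂ) f)) :=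
        (Complex.continuous_conj.neg).tendsto f
      refine ((h2.comp hf).comp h1m).congr fun t => ?_
      exact (hquot _).symm) (by
      obtain ⟨ε, hε, hev⟩ := hLB
      refine ⟨ε, hε, ?_⟩
      filter_upwards [h1m.eventually hev] with s hs
      change ε ≤ ‖flip C.ℓ (C.α (1 - s)) / (‖flip C.ℓ (C.α (1 - s))‖ : ℂ) -
        -(starRingEnd ℂ) f‖
      rw [hquot, ← neg_sub', norm_neg, ← map_sub, Complex.norm_conj]
      exact hs)
  obtain ⟨s, hs, s', hs', hss, hw, hq⟩ := C.main D (D.neg hB) D' hr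
  refine ⟨s, hs, s', hs', hss, ?_, ?_⟩
  · have e1 : C.w r s s' = C.α s + rot r (C.α s' - C.α s) := by
      unfold Cfg.w
      rw [C.L_mid hs, C.L_mid hs']
    rw [← e1]; exact hw
  · have e1 : C.q r s s' = C.α s' + rot r (C.α s' - C.α s) := by
      unfold Cfg.q
      rw [C.L_mid hs, C.L_mid hs']
    rw [← e1]; exact hq

/-- Complex conjugate configuration. -/
noncomputable def conj (C : Cfg) : Cfg where
  α s := (starRingEnd ℂ) (C.α s)
  β t := (starRingEnd ℂ) (C.β t)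
  ℓ := C.ℓ
  hℓ := C.hℓ
  hα := Complex.continuous_conj.comp C.hα
  hβ := Complex.continuous_conj.comp C.hβ
  α0 s hs := by rw [C.α0 s hs, map_zero]
  α1 s hs := by rw [C.α1 s hs, Complex.conj_ofReal]
  β0 s hs := by rw [C.β0 s hs, map_zero]
  β1 s hs := by rw [C.β1 s hs, Complex.conj_ofReal]
  R0 s t := by
    have h := C.R0 s t
    simp only [dt, Complex.conj_re, Complex.conj_im] at h ⊢
    linarith
  R1 s t := by
    have h := C.R1 s t
    simp only [dt, Complex.sub_re, Complex.sub_im, Complex.ofReal_re, Complex.ofReal_im,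
      Complex.conj_re, Complex.conj_im] at h ⊢
    linarith
  inj s hs t ht h := C.inj hs ht ((starRingEnd ℂ).injective h)
  disj s hs t h := C.disj s hs t ((starRingEnd ℂ).injective h)

lemma cr_conj (e z : ℂ) : cr ((starRingEnd ℂ) e) ((starRingEnd ℂ) z) = -cr e z := by
  simp only [cr, Complex.conj_re, Complex.conj_im]; ring

lemma quot_conj (z : ℂ) : (starRingEnd ℂ) z / (‖(starRingEnd ℂ) z‖ : ℂ) =
    (starRingEnd ℂ) (z / (‖z‖ : ℂ)) := by
  rw [Complex.norm_conj, map_div₀, Complex.conj_ofReal]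

lemma conj_rot (r : ℝ) (v : ℂ) : (starRingEnd ℂ) (rot r ((starRingEnd ℂ) v)) = -rot r v := by
  apply Complex.ext <;> simp [rot]

/-- The theorem for a configuration with half-tangents. -/
theorem core (C : Cfg) (hβi : InjOn C.β (Icc 0 1)) {e f : ℂ}
    (he : Tendsto (fun t => C.β t / (‖C.β t‖ : ℂ)) (𝓝[>] 0) (𝓝 e))
    (hLA : ∃ ε : ℝ, 0 < ε ∧ ∀ᶠ s in 𝓝[>] (0 : ℝ), ε ≤ ‖C.α s / (‖C.α s‖ : ℂ) - e‖)
    (hf : Tendsto (fun t => (C.β t - C.ℓ) / (‖C.β t - C.ℓ‖ : ℂ)) (𝓝[<] 1) (𝓝 f))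
    (hLB : ∃ ε : ℝ, 0 < ε ∧ ∀ᶠ s in 𝓝[<] (1 : ℝ),
      ε ≤ ‖(C.α s - C.ℓ) / (‖C.α s - C.ℓ‖ : ℂ) - f‖)
    {r : ℝ} (hr : 0 < r) : ∃ p v : ℂ, v ≠ 0 ∧ p ∈ range C.α ∧ p + v ∈ range C.α ∧
      p + v + rot r v ∈ range C.β ∧ p + rot r v ∈ range C.β := by
  have bne0 : ∀ t ∈ Ioc (0 : ℝ) 1, C.β t ≠ 0 := by
    intro t ht h
    have : C.β t = C.β 0 := by rw [h, C.β0 0 le_rfl]
    have := hβi ⟨ht.1.le, ht.2⟩ ⟨le_rfl, zero_le_one⟩ this
    linarith [ht.1]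
  obtain ⟨D, hD⟩ := C.exists_loc bne0 he hLA
  obtain ⟨s1, hs1, habs⟩ := D.LA
  have hε := D.hε
  rw [hD] at habs
  have hcont : Continuous fun s => cr e (C.α s) := (continuous_cr e).comp C.hα
  have hnz : ∀ s ∈ Ioc 0 s1, cr e (C.α s) ≠ 0 := by
    intro s hs h
    have h1 := habs s ⟨hs.1.le, hs.2⟩
    rw [h, abs_zero] at h1
    have h2 : 0 < ‖C.α s‖ := norm_pos_iff.2 (C.α_ne_zero hs.1 (hs.2.trans hs1.2))
    have : 0 < D.ε * ‖C.α s‖ := by positivity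
    linarith
  have hsgn : (∀ s ∈ Ioc 0 s1, cr e (C.α s) < 0) ∨ (∀ s ∈ Ioc 0 s1, 0 < cr e (C.α s)) := by
    have hpre : (fun s => cr e (C.α s)) '' Ioc 0 s1 |>.OrdConnected :=
      (isPreconnected_Ioc.image _ hcont.continuousOn).ordConnected
    rcases lt_or_gt_of_ne (hnz s1 ⟨hs1.1, le_rfl⟩) with h | h
    · left
      intro s hs
      by_contra h'
      push Not at h'
      obtain ⟨t, ht, ht'⟩ := hpre.out (mem_image_of_mem _ (⟨hs1.1, le_rfl⟩ : s1 ∈ Ioc 0 s1))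
        (mem_image_of_mem _ hs) ⟨h.le, h'⟩
      exact hnz t ht ht'
    · right
      intro s hs
      by_contra h'
      push Not at h'
      obtain ⟨t, ht, ht'⟩ := hpre.out (mem_image_of_mem _ hs)
        (mem_image_of_mem _ (⟨hs1.1, le_rfl⟩ : s1 ∈ Ioc 0 s1)) ⟨h', h.le⟩
      exact hnz t ht ht'
  rcases hsgn with hneg | hpos
  · obtain ⟨s, hs, s', hs', hss, hw, hq⟩ := C.core_low hβi he hLA hf hLB ⟨s1, hs1, hneg⟩ hr
    refine ⟨C.α s, C.α s' - C.α s, ?_, ⟨s, rfl⟩, ⟨s', by ring⟩, ?_, hw⟩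
    · intro h
      have := C.inj hs' hs (sub_eq_zero.1 h)
      linarith
    · have e1 : C.α s + (C.α s' - C.α s) + rot r (C.α s' - C.α s) =
        C.α s' + rot r (C.α s' - C.α s) := by ring
      rw [e1]; exact hq
  · obtain ⟨s, hs, s', hs', hss, ⟨t, ht⟩, ⟨t', ht'⟩⟩ := C.conj.core_low
      (e := (starRingEnd ℂ) e) (f := (starRingEnd ℂ) f)
      (fun x hx y hy h => hβi hx hy ((starRingEnd ℂ).injective h)) (by
        refine ((Complex.continuous_conj.tendsto e).comp he).congr fun t => ?_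
        exact (quot_conj _).symm) (by
        obtain ⟨ε, hε, hev⟩ := hLA
        refine ⟨ε, hε, ?_⟩
        filter_upwards [hev] with s hs
        change ε ≤ ‖(starRingEnd ℂ) (C.α s) / (‖(starRingEnd ℂ) (C.α s)‖ : ℂ) -
          (starRingEnd ℂ) e‖
        rw [quot_conj, ← map_sub, Complex.norm_conj]
        exact hs) (by
        refine ((Complex.continuous_conj.tendsto f).comp hf).congr fun t => ?_
        change (starRingEnd ℂ) ((C.β t - C.ℓ) / (‖C.β t - C.ℓ‖ : ℂ)) =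
          ((starRingEnd ℂ) (C.β t) - C.ℓ) / (‖(starRingEnd ℂ) (C.β t) - C.ℓ‖ : ℂ)
        have e1 : (starRingEnd ℂ) (C.β t) - (C.ℓ : ℂ) = (starRingEnd ℂ) (C.β t - C.ℓ) := by
          rw [map_sub, Complex.conj_ofReal]
        rw [e1, quot_conj]) (by
        obtain ⟨ε, hε, hev⟩ := hLB
        refine ⟨ε, hε, ?_⟩
        filter_upwards [hev] with s hs
        change ε ≤ ‖((starRingEnd ℂ) (C.α s) - C.ℓ) / (‖(starRingEnd ℂ) (C.α s) - C.ℓ‖ : ℂ) -
          (starRingEnd ℂ) f‖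
        have e1 : (starRingEnd ℂ) (C.α s) - (C.ℓ : ℂ) = (starRingEnd ℂ) (C.α s - C.ℓ) := by
          rw [map_sub, Complex.conj_ofReal]
        rw [e1, quot_conj, ← map_sub, Complex.norm_conj]
        exact hs)
      ⟨s1, hs1, fun s hs => by
        change cr ((starRingEnd ℂ) e) ((starRingEnd ℂ) (C.α s)) < 0
        rw [cr_conj]; linarith [hpos s hs]⟩ hr
    have ht : (starRingEnd ℂ) (C.β t) = (starRingEnd ℂ) (C.α s) +
      rot r ((starRingEnd ℂ) (C.α s') - (starRingEnd ℂ) (C.α s)) := ht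
    have ht' : (starRingEnd ℂ) (C.β t') = (starRingEnd ℂ) (C.α s') +
      rot r ((starRingEnd ℂ) (C.α s') - (starRingEnd ℂ) (C.α s)) := ht'
    have key : ∀ x y z : ℂ, (starRingEnd ℂ) z = (starRingEnd ℂ) x + rot r ((starRingEnd ℂ) y) →
        z = x - rot r y := by
      intro x y z h
      have h1 := congrArg (starRingEnd ℂ) h
      rw [Complex.conj_conj, map_add, Complex.conj_conj, conj_rot] at h1
      rw [h1]; ring
    rw [← map_sub] at ht ht'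
    have k1 := key _ _ _ ht
    have k2 := key _ _ _ ht'
    have hrn : ∀ v : ℂ, rot r (-v) = -rot r v := fun v => by
      apply Complex.ext <;> simp [rot]
    refine ⟨C.α s', -(C.α s' - C.α s), ?_, ⟨s', rfl⟩, ⟨s, by ring⟩, ?_, ?_⟩
    · intro h
      have := C.inj hs' hs (sub_eq_zero.1 (neg_eq_zero.1 h))
      linarith
    · refine ⟨t, ?_⟩
      rw [k1, hrn]; ring
    · refine ⟨t', ?_⟩
      rw [k2, hrn]; ring

end Cfg

end Pool.MP_7ec17a_gt.R
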