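import Pool.Agent.Work.MP_7ec17a_gt_T.Cross

/-!
# The configuration: two arcs from `0` to `ℓ` with the right-angle condition
-/

set_option autoImplicit false

open Set

namespace Pool.MP_7ec17a_gt.R

open Pool.MP_7ec17a_gt.T

/-- Two arcs `α`, `β` from `0` to `ℓ` such that a point of one and a point of the other are seen
from `0`, and from `ℓ`, under an angle at most `π / 2`. -/
structure Cfg where
  /-- lower arc -/
  α : ℝ → ℂ
  /-- upper arc -/
  β : ℝ → ℂ
  /-- right end -/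
  ℓ : ℝ
  hℓ : 0 < ℓ
  hα : Continuous α
  hβ : Continuous β
  α0 : ∀ s, s ≤ 0 → α s = 0
  α1 : ∀ s, 1 ≤ s → α s = ℓ
  β0 : ∀ s, s ≤ 0 → β s = 0
  β1 : ∀ s, 1 ≤ s → β s = ℓ
  R0 : ∀ s t, 0 ≤ dt (α s) (β t)
  R1 : ∀ s t, 0 ≤ dt (α s - ℓ) (β t - ℓ)
  inj : InjOn α (Icc 0 1)
  disj : ∀ s ∈ Ioo (0 : ℝ) 1, ∀ t, α s ≠ β t

namespace Cfg

variable (C : Cfg)

/-- The tail at `0`. -/
def S0 : Set ℂ := {z | z.im = 0 ∧ z.re ≤ 0}

/-- The tail at `ℓ`. -/
def S1 : Set ℂ := {z | z.im = 0 ∧ C.ℓ ≤ z.re}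

/-- The extended upper arc, as a set. -/
def Uh : Set ℂ := range C.β ∪ S0 ∪ C.S1

/-- The extended lower arc, as a set. -/
def Lh : Set ℂ := range C.α ∪ S0 ∪ C.S1

/-- Extension of an arc by the two tails. -/
noncomputable def ext (γ : ℝ → ℂ) (s : ℝ) : ℂ := γ s + ((min s 0 + max (s - 1) 0 : ℝ) : ℂ)

lemma ext_neg {γ : ℝ → ℂ} (h0 : ∀ s, s ≤ 0 → γ s = 0) {s : ℝ} (hs : s ≤ 0) :
    ext γ s = (s : ℂ) := by
  unfold ext
  rw [h0 s hs, min_eq_left hs, max_eq_right (by linarith)]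
  simp

lemma ext_mid (γ : ℝ → ℂ) {s : ℝ} (h0 : 0 ≤ s) (h1 : s ≤ 1) : ext γ s = γ s := by
  unfold ext
  rw [min_eq_right h0, max_eq_right (by linarith)]
  simp

lemma ext_big {γ : ℝ → ℂ} (h1 : ∀ s, 1 ≤ s → γ s = C.ℓ) {s : ℝ} (hs : 1 ≤ s) :
    ext γ s = ((C.ℓ + (s - 1) : ℝ) : ℂ) := by
  unfold ext
  rw [h1 s hs, min_eq_right (by linarith), max_eq_left (by linarith)]
  push_cast
  ring

lemma continuous_ext {γ : ℝ → ℂ} (h : Continuous γ) : Continuous (ext γ) := by
  unfold ext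
  fun_prop

lemma α_re (s : ℝ) : 0 ≤ (C.α s).re ∧ (C.α s).re ≤ C.ℓ := by
  have h0 := C.R0 s 1
  have h1 := C.R1 s 0
  rw [C.β1 1 le_rfl] at h0
  rw [C.β0 0 le_rfl] at h1
  have hℓ := C.hℓ
  simp only [dt, Complex.ofReal_re, Complex.ofReal_im, Complex.sub_re, Complex.sub_im,
    Complex.zero_re, Complex.zero_im] at h0 h1
  constructor <;> nlinarith

lemma β_re (t : ℝ) : 0 ≤ (C.β t).re ∧ (C.β t).re ≤ C.ℓ := by
  have h0 := C.R0 1 t
  have h1 := C.R1 0 t
  rw [C.α1 1 le_rfl] at h0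
  rw [C.α0 0 le_rfl] at h1
  have hℓ := C.hℓ
  simp only [dt, Complex.ofReal_re, Complex.ofReal_im, Complex.sub_re, Complex.sub_im,
    Complex.zero_re, Complex.zero_im] at h0 h1
  constructor <;> nlinarith

lemma mem_S0 {s : ℝ} (hs : s ≤ 0) : (s : ℂ) ∈ S0 := ⟨Complex.ofReal_im s, by simpa using hs⟩

lemma mem_S1 {s : ℝ} (hs : C.ℓ ≤ s) : (s : ℂ) ∈ C.S1 := ⟨Complex.ofReal_im s, by simpa using hs⟩

lemma ext_β_mem (t : ℝ) : ext C.β t ∈ C.Uh := by
  rcases le_total t 0 with h | h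
  · rw [ext_neg C.β0 h]; exact Or.inl (Or.inr (mem_S0 h))
  · rcases le_total t 1 with h' | h'
    · rw [ext_mid C.β h h']; exact Or.inl (Or.inl ⟨t, rfl⟩)
    · rw [C.ext_big C.β1 h']; exact Or.inr (C.mem_S1 (by linarith))

lemma ext_α_mem (t : ℝ) : ext C.α t ∈ C.Lh := by
  rcases le_total t 0 with h | h
  · rw [ext_neg C.α0 h]; exact Or.inl (Or.inr (mem_S0 h))
  · rcases le_total t 1 with h' | h'
    · rw [ext_mid C.α h h']; exact Or.inl (Or.inl ⟨t, rfl⟩)
    · rw [C.ext_big C.α1 h']; exact Or.inr (C.mem_S1 (by linarith))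

lemma isClosed_Uh : IsClosed C.Uh := by
  have h1 : range C.β = C.β '' Icc 0 1 := by
    apply Subset.antisymm
    · rintro _ ⟨s, rfl⟩
      rcases le_total s 0 with h | h
      · exact ⟨0, ⟨le_rfl, zero_le_one⟩, by rw [C.β0 s h, C.β0 0 le_rfl]⟩
      · rcases le_total s 1 with h' | h'
        · exact ⟨s, ⟨h, h'⟩, rfl⟩
        · exact ⟨1, ⟨zero_le_one, le_rfl⟩, by rw [C.β1 s h', C.β1 1 le_rfl]⟩
    · exact image_subset_range _ _
  have h2 : IsClosed (range C.β) := by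
    rw [h1]; exact (isCompact_Icc.image C.hβ).isClosed
  have h3 : IsClosed S0 :=
    (isClosed_eq Complex.continuous_im continuous_const).inter
      (isClosed_le Complex.continuous_re continuous_const)
  have h4 : IsClosed C.S1 :=
    (isClosed_eq Complex.continuous_im continuous_const).inter
      (isClosed_le continuous_const Complex.continuous_re)
  exact (h2.union h3).union h4

lemma real_eq {z : ℂ} {t : ℝ} (h1 : z.im = 0) (h2 : z.re = t) : z = (t : ℂ) := by
  apply Complex.ext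
  · rw [h2, Complex.ofReal_re]
  · rw [h1, Complex.ofReal_im]

lemma Lh_re {z : ℂ} (hz : z ∈ C.Lh) : z ∈ S0 ∨ 0 ≤ z.re := by
  rcases hz with (⟨t, rfl⟩ | hz) | hz
  · exact Or.inr (C.α_re t).1
  · exact Or.inl hz
  · exact Or.inr (C.hℓ.le.trans hz.2)

lemma Uh_re {z : ℂ} (hz : z ∈ C.Uh) : z ∈ S0 ∨ 0 ≤ z.re := by
  rcases hz with (⟨t, rfl⟩ | hz) | hz
  · exact Or.inr (C.β_re t).1
  · exact Or.inl hz
  · exact Or.inr (C.hℓ.le.trans hz.2)

lemma Lh_re' {z : ℂ} (hz : z ∈ C.Lh) : z ∈ C.S1 ∨ z.re ≤ C.ℓ := by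
  rcases hz with (⟨t, rfl⟩ | hz) | hz
  · exact Or.inr (C.α_re t).2
  · exact Or.inr (hz.2.trans C.hℓ.le)
  · exact Or.inl hz

lemma Uh_re' {z : ℂ} (hz : z ∈ C.Uh) : z ∈ C.S1 ∨ z.re ≤ C.ℓ := by
  rcases hz with (⟨t, rfl⟩ | hz) | hz
  · exact Or.inr (C.β_re t).2
  · exact Or.inr (hz.2.trans C.hℓ.le)
  · exact Or.inl hz

/-- Exclusion at the left tail. -/
lemma excl_left {t : ℝ} (ht : t < 0) {x y : ℂ} (hx : x ∈ C.Lh) (hy : y ∈ C.Uh)
    (hx' : x ≠ (t : ℂ)) (hy' : y ≠ (t : ℂ)) : dt (x - t) (y - t) ≠ 0 := by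
  have e : dt (x - t) (y - t) = (x.re - t) * (y.re - t) + x.im * y.im := by
    simp [dt]
  rw [e]
  have hℓ := C.hℓ
  by_cases h1 : x.im = 0
  · rw [h1, zero_mul, add_zero]
    refine mul_ne_zero (fun h => hx' (real_eq h1 (by linarith))) fun h => ?_
    rcases C.Uh_re hy with h2 | h2
    · exact hy' (real_eq h2.1 (by linarith))
    · linarith
  · by_cases h2 : y.im = 0
    · rw [h2, mul_zero, add_zero]
      refine mul_ne_zero (fun h => ?_) fun h => hy' (real_eq h2 (by linarith))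
      rcases C.Lh_re hx with h3 | h3
      · exact h1 h3.1
      · linarith
    · have hxα : x ∈ range C.α := by
        rcases hx with (h | h) | h
        · exact h
        · exact absurd h.1 h1
        · exact absurd h.1 h1
      have hyβ : y ∈ range C.β := by
        rcases hy with (h | h) | h
        · exact h
        · exact absurd h.1 h2
        · exact absurd h.1 h2
      obtain ⟨s, rfl⟩ := hxα
      obtain ⟨u, rfl⟩ := hyβ
      have h3 := C.R0 s u
      have h4 := (C.α_re s).1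
      have h5 := (C.β_re u).1
      simp only [dt] at h3
      apply ne_of_gt
      nlinarith [mul_pos_of_neg_of_neg ht ht, mul_nonneg (neg_nonneg.2 ht.le) h4,
        mul_nonneg (neg_nonneg.2 ht.le) h5]

/-- Exclusion at the right tail. -/
lemma excl_right {t : ℝ} (ht : C.ℓ < t) {x y : ℂ} (hx : x ∈ C.Lh) (hy : y ∈ C.Uh)
    (hx' : x ≠ (t : ℂ)) (hy' : y ≠ (t : ℂ)) : dt (x - t) (y - t) ≠ 0 := by
  have e : dt (x - t) (y - t) = (x.re - t) * (y.re - t) + x.im * y.im := by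
    simp [dt]
  rw [e]
  have hℓ := C.hℓ
  by_cases h1 : x.im = 0
  · rw [h1, zero_mul, add_zero]
    refine mul_ne_zero (fun h => hx' (real_eq h1 (by linarith))) fun h => ?_
    rcases C.Uh_re' hy with h2 | h2
    · exact hy' (real_eq h2.1 (by linarith))
    · linarith
  · by_cases h2 : y.im = 0
    · rw [h2, mul_zero, add_zero]
      refine mul_ne_zero (fun h => ?_) fun h => hy' (real_eq h2 (by linarith))
      rcases C.Lh_re' hx with h3 | h3
      · exact h1 h3.1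
      · linarith
    · have hxα : x ∈ range C.α := by
        rcases hx with (h | h) | h
        · exact h
        · exact absurd h.1 h1
        · exact absurd h.1 h1
      have hyβ : y ∈ range C.β := by
        rcases hy with (h | h) | h
        · exact h
        · exact absurd h.1 h2
        · exact absurd h.1 h2
      obtain ⟨s, rfl⟩ := hxα
      obtain ⟨u, rfl⟩ := hyβ
      have h3 := C.R1 s u
      have h4 := (C.α_re s).2
      have h5 := (C.β_re u).2
      simp only [dt, Complex.sub_re, Complex.sub_im, Complex.ofReal_re, Complex.ofReal_im,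
        sub_zero] at h3
      have ht' : 0 < t - C.ℓ := sub_pos.2 ht
      apply ne_of_gt
      nlinarith [mul_pos ht' ht', mul_nonneg ht'.le (sub_nonneg.2 h4),
        mul_nonneg ht'.le (sub_nonneg.2 h5)]

/-- Region above the left tail. -/
def GAp : Set ℂ := {z | z.re < 0 ∧ 0 < z.im}

/-- Region below the left tail. -/
def GAm : Set ℂ := {z | z.re < 0 ∧ z.im < 0}

/-- Region above the right tail. -/
def GBp : Set ℂ := {z | C.ℓ < z.re ∧ 0 < z.im}

/-- Region below the right tail. -/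
def GBm : Set ℂ := {z | C.ℓ < z.re ∧ z.im < 0}

lemma conv_re_lt (c : ℝ) : Convex ℝ {z : ℂ | z.re < c} := convex_halfSpace_re_lt c

lemma conv_re_gt (c : ℝ) : Convex ℝ {z : ℂ | c < z.re} := convex_halfSpace_re_gt c

lemma conv_im_lt (c : ℝ) : Convex ℝ {z : ℂ | z.im < c} := convex_halfSpace_im_lt c

lemma conv_im_gt (c : ℝ) : Convex ℝ {z : ℂ | c < z.im} := convex_halfSpace_im_gt c

lemma convex_GAp : Convex ℝ GAp := (conv_re_lt 0).inter (conv_im_gt 0)

lemma convex_GAm : Convex ℝ GAm := (conv_re_lt 0).inter (conv_im_lt 0)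

lemma convex_GBp : Convex ℝ C.GBp := (conv_re_gt C.ℓ).inter (conv_im_gt 0)

lemma convex_GBm : Convex ℝ C.GBm := (conv_re_gt C.ℓ).inter (conv_im_lt 0)

lemma GAp_sub : GAp ⊆ C.Uhᶜ := by
  intro z hz hU
  rcases C.Uh_re hU with h | h
  · have := h.1; have := hz.2; linarith
  · have := hz.1; linarith

lemma GAm_sub : GAm ⊆ C.Uhᶜ := by
  intro z hz hU
  rcases C.Uh_re hU with h | h
  · have := h.1; have := hz.2; linarith
  · have := hz.1; linarith

lemma GBp_sub : C.GBp ⊆ C.Uhᶜ := by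
  intro z hz hU
  rcases C.Uh_re' hU with h | h
  · have := h.1; have := hz.2; linarith
  · have := hz.1; linarith

lemma GBm_sub : C.GBm ⊆ C.Uhᶜ := by
  intro z hz hU
  rcases C.Uh_re' hU with h | h
  · have := h.1; have := hz.2; linarith
  · have := hz.1; linarith

/-- Reference point above. -/
def zp : ℂ := ⟨-1, 1⟩

/-- Reference point below. -/
def zm : ℂ := ⟨-1, -1⟩

lemma zp_mem : zp ∈ GAp := ⟨by norm_num [zp], by norm_num [zp]⟩

lemma zm_mem : zm ∈ GAm := ⟨by norm_num [zm], by norm_num [zm]⟩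

/-- The upper component. -/
def Vp : Set ℂ := connectedComponentIn C.Uhᶜ zp

lemma isOpen_Vp : IsOpen C.Vp := C.isClosed_Uh.isOpen_compl.connectedComponentIn

lemma zp_mem_Vp : zp ∈ C.Vp := mem_connectedComponentIn (C.GAp_sub zp_mem)

end Cfg

end Pool.MP_7ec17a_gt.R
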