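import Pool.Agent.Work.MP_7ec17a_gt_R.Cfg

/-!
# The extended upper arc separates the plane
-/

set_option autoImplicit false

open Set Real

namespace Pool.MP_7ec17a_gt.R

open Pool.MP_7ec17a_gt.T

namespace Cfg

variable (C : Cfg)

/-- Separation. -/
theorem zm_not_mem : zm ∉ C.Vp := by
  intro hm
  have hpi := Real.pi_pos
  have hℓ := C.hℓ
  have hconn : IsConnected C.Vp := ⟨⟨_, hm⟩, isPreconnected_connectedComponentIn⟩
  have hp := (C.isOpen_Vp.isConnected_iff_isPathConnected).1 hconn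
  obtain ⟨δ, hδ⟩ := hp.joinedIn _ hm _ C.zp_mem_Vp
  set d : ℝ → ℂ := fun t => δ.extend t with hd
  have hdc : Continuous d := δ.extend.continuous
  have hd0 : d 0 = zm := δ.extend_zero
  have hd1 : d 1 = zp := δ.extend_one
  have hdV : ∀ t, d t ∈ C.Vp := fun t => by
    have : d t ∈ range δ := by rw [← δ.extend_range]; exact mem_range_self t
    obtain ⟨u, hu⟩ := this
    rw [← hu]; exact hδ u
  have hdU : ∀ t, d t ∉ C.Uh := fun t => connectedComponentIn_subset _ _ (hdV t)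
  obtain ⟨K, hK⟩ : ∃ K, ∀ t, ‖d t‖ ≤ K := by
    obtain ⟨K, hK⟩ := (isCompact_range δ.continuous).isBounded.exists_norm_le
    refine ⟨K, fun t => hK _ ?_⟩
    rw [← δ.extend_range]; exact mem_range_self t
  have hK0 : 0 ≤ K := (norm_nonneg _).trans (hK 0)
  set U := ext C.β with hU
  have hUc : Continuous U := continuous_ext C.hβ
  have hF : Continuous fun z : ℝ × ℝ => U z.1 - d z.2 := by fun_prop
  have hF0 : ∀ z ∈ (univ : Set (ℝ × ℝ)), (fun z : ℝ × ℝ => U z.1 - d z.2) z ≠ 0 := by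
    intro z _ h0
    have : U z.1 = d z.2 := sub_eq_zero.1 h0
    exact hdU z.2 (this ▸ C.ext_β_mem z.1)
  obtain ⟨θ', hθ'c, hθ'⟩ := exists_arg convex_univ isOpen_univ ⟨(0, 0), mem_univ _⟩
    hF.continuousOn hF0
  have npos : ∀ t τ, 0 < ‖U t - d τ‖ := fun t τ => norm_pos_iff.2 (hF0 (t, τ) (mem_univ _))
  have Rre : ∀ t τ, (U t - d τ).re = ‖U t - d τ‖ * cos (θ' (t, τ)) := fun t τ =>
    (hθ' (t, τ) (mem_univ _)).1
  have Rim : ∀ t τ, (U t - d τ).im = ‖U t - d τ‖ * sin (θ' (t, τ)) := fun t τ =>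
    (hθ' (t, τ) (mem_univ _)).2
  have posOf : ∀ {t τ x : ℝ}, 0 < ‖U t - d τ‖ * x → 0 < x := fun {t τ x} h =>
    (pos_iff_pos_of_mul_pos h).1 (npos t τ)
  have negOf : ∀ {t τ x : ℝ}, ‖U t - d τ‖ * x < 0 → x < 0 := fun {t τ x} h => by
    by_contra hx
    push Not at hx
    have := mul_nonneg (npos t τ).le hx
    linarith
  have hU0 : U 0 = 0 := by rw [hU, ext_neg C.β0 le_rfl]; simp
  -- real part on the right half
  have Ure : ∀ t, (0 : ℝ) ≤ t → 0 ≤ (U t).re := by
    intro t ht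
    rcases le_total t 1 with h | h
    · rw [hU, ext_mid C.β ht h]; exact (C.β_re t).1
    · rw [hU, C.ext_big C.β1 h, Complex.ofReal_re]; linarith
  have Uneg : ∀ t, t ≤ (0 : ℝ) → U t = (t : ℂ) := fun t ht => by rw [hU, ext_neg C.β0 ht]
  -- normalisation
  obtain ⟨n, hn0, hn1⟩ : ∃ n : ℤ, 0 < θ' (0, 0) - n * (2 * π) ∧
      θ' (0, 0) - n * (2 * π) < π / 2 := by
    apply norm_angle
    · apply posOf (t := 0) (τ := 0)
      rw [← Rim, hU0, hd0]
      norm_num [zm]
    · apply posOf (t := 0) (τ := 0)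
      rw [← Rre, hU0, hd0]
      norm_num [zm]
  set θ : ℝ × ℝ → ℝ := fun z => θ' z - n * (2 * π) with hθ
  have hθc : Continuous θ := (continuousOn_univ.1 hθ'c).sub continuous_const
  have Sre : ∀ t τ, (U t - d τ).re = ‖U t - d τ‖ * cos (θ (t, τ)) := fun t τ => by
    rw [hθ]; simp only; rw [Real.cos_sub_int_mul_two_pi]; exact Rre t τ
  have Sim : ∀ t τ, (U t - d τ).im = ‖U t - d τ‖ * sin (θ (t, τ)) := fun t τ => by
    rw [hθ]; simp only; rw [Real.sin_sub_int_mul_two_pi]; exact Rim t τ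
  have h00 : 0 < θ (0, 0) ∧ θ (0, 0) < π / 2 := ⟨hn0, hn1⟩
  have s32 : cos (3 * π / 2) = 0 := by
    have e : 3 * π / 2 = π / 2 + π := by ring
    rw [e, Real.cos_add_pi, Real.cos_pi_div_two, neg_zero]
  have s52 : cos (5 * π / 2) = 0 := by
    have e : 5 * π / 2 = π / 2 + 2 * π := by ring
    rw [e, Real.cos_add_two_pi, Real.cos_pi_div_two]
  -- row 0, left half
  have r0l : ∀ t ≤ (0 : ℝ), 0 < θ (t, 0) ∧ θ (t, 0) < π := by
    have hs : ∀ t ≤ (0 : ℝ), 0 < sin (θ (t, 0)) := by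
      intro t ht
      apply posOf (t := t) (τ := 0)
      rw [← Sim, hd0, Complex.sub_im, Uneg t ht, Complex.ofReal_im]
      norm_num [zm]
    have := stay (S := Iic (0 : ℝ) ×ˢ ({0} : Set ℝ))
      ((convex_Iic _).prod (convex_singleton _)).isPreconnected hθc.continuousOn
      (lo := 0) (hi := π) ?_ (z0 := (0, 0)) ⟨mem_Iic.2 le_rfl, rfl⟩
      ⟨h00.1, by linarith [h00.2]⟩
    · intro t ht
      exact this (t, 0) ⟨ht, rfl⟩
    · rintro ⟨t, τ⟩ ⟨ht, hτ⟩
      have hτ' : τ = 0 := hτ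
      subst hτ'
      have := hs t ht
      constructor
      · intro h; rw [h, Real.sin_zero] at this; exact lt_irrefl _ this
      · intro h; rw [h, Real.sin_pi] at this; exact lt_irrefl _ this
  -- row 0, right half
  have r0r : ∀ t, (0 : ℝ) ≤ t → -(π / 2) < θ (t, 0) ∧ θ (t, 0) < π / 2 := by
    have hs : ∀ t, (0 : ℝ) ≤ t → 0 < cos (θ (t, 0)) := by
      intro t ht
      apply posOf (t := t) (τ := 0)
      rw [← Sre, hd0, Complex.sub_re]
      have := Ure t ht
      simp only [zm]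
      linarith
    have := stay (S := Ici (0 : ℝ) ×ˢ ({0} : Set ℝ))
      ((convex_Ici _).prod (convex_singleton _)).isPreconnected hθc.continuousOn
      (lo := -(π / 2)) (hi := π / 2) ?_ (z0 := (0, 0)) ⟨mem_Ici.2 le_rfl, rfl⟩
      ⟨by linarith [h00.1], h00.2⟩
    · intro t ht
      exact this (t, 0) ⟨ht, rfl⟩
    · rintro ⟨t, τ⟩ ⟨ht, hτ⟩
      have hτ' : τ = 0 := hτ
      subst hτ'
      have := hs t ht
      constructor
      · intro h; rw [h, Real.cos_neg, Real.cos_pi_div_two] at this; exact lt_irrefl _ this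
      · intro h; rw [h, Real.cos_pi_div_two] at this; exact lt_irrefl _ this
  set T : ℝ := K + 2 with hT
  -- column -T
  have cm : ∀ τ, cos (θ (-T, τ)) < 0 := by
    intro τ
    apply negOf (t := -T) (τ := τ)
    rw [← Sre, Complex.sub_re, Uneg _ (by linarith), Complex.ofReal_re]
    have h2 := (abs_le.1 ((Complex.abs_re_le_norm (d τ)).trans (hK τ))).1
    linarith
  have cm0 : π / 2 < θ (-T, 0) := by
    have h1 := r0l (-T) (by linarith)
    by_contra h
    push Not at h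
    have := Real.cos_nonneg_of_neg_pi_div_two_le_of_le (x := θ (-T, 0)) (by linarith) h
    linarith [cm 0]
  have cmall : ∀ τ, π / 2 < θ (-T, τ) ∧ θ (-T, τ) < 3 * π / 2 := by
    have := stay (S := ({-T} : Set ℝ) ×ˢ (univ : Set ℝ))
      ((convex_singleton _).prod convex_univ).isPreconnected hθc.continuousOn
      (lo := π / 2) (hi := 3 * π / 2) ?_ (z0 := (-T, 0)) ⟨rfl, mem_univ _⟩
      ⟨cm0, by linarith [(r0l (-T) (by linarith)).2]⟩
    · intro τ
      exact this (-T, τ) ⟨rfl, mem_univ _⟩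
    · rintro ⟨t, τ⟩ ⟨ht, -⟩
      have ht' : t = -T := ht
      subst ht'
      have := cm τ
      constructor
      · intro h; rw [h, Real.cos_pi_div_two] at this; exact lt_irrefl _ this
      · intro h; rw [h, s32] at this; exact lt_irrefl _ this
  -- row 1, left half
  have s1l : ∀ t ≤ (0 : ℝ), sin (θ (t, 1)) < 0 := by
    intro t ht
    apply negOf (t := t) (τ := 1)
    rw [← Sim, hd1, Complex.sub_im, Uneg t ht, Complex.ofReal_im]
    norm_num [zp]
  have cm1 : π < θ (-T, 1) := by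
    by_contra h
    push Not at h
    have := Real.sin_nonneg_of_nonneg_of_le_pi (x := θ (-T, 1))
      (by linarith [(cmall 1).1]) h
    linarith [s1l (-T) (by linarith)]
  have r1l : ∀ t ≤ (0 : ℝ), π < θ (t, 1) ∧ θ (t, 1) < 2 * π := by
    have := stay (S := Iic (0 : ℝ) ×ˢ ({1} : Set ℝ))
      ((convex_Iic _).prod (convex_singleton _)).isPreconnected hθc.continuousOn
      (lo := π) (hi := 2 * π) ?_ (z0 := (-T, 1)) ⟨mem_Iic.2 (by linarith), rfl⟩
      ⟨cm1, by linarith [(cmall 1).2]⟩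
    · intro t ht
      exact this (t, 1) ⟨ht, rfl⟩
    · rintro ⟨t, τ⟩ ⟨ht, hτ⟩
      have hτ' : τ = 1 := hτ
      subst hτ'
      have := s1l t ht
      constructor
      · intro h; rw [h, Real.sin_pi] at this; exact lt_irrefl _ this
      · intro h; rw [h, Real.sin_two_pi] at this; exact lt_irrefl _ this
  have h01 : 3 * π / 2 < θ (0, 1) := by
    by_contra h
    push Not at h
    have h1 := (r1l 0 le_rfl).1
    have hc : 0 < cos (θ (0, 1)) := by
      apply posOf (t := 0) (τ := 1)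
      rw [← Sre, hU0, hd1]
      norm_num [zp]
    have e : cos (θ (0, 1)) = -cos (θ (0, 1) - π) := by
      rw [Real.cos_sub_pi, neg_neg]
    have := Real.cos_nonneg_of_neg_pi_div_two_le_of_le (x := θ (0, 1) - π) (by linarith)
      (by linarith)
    linarith
  -- row 1, right half
  have r1r : ∀ t, (0 : ℝ) ≤ t → 3 * π / 2 < θ (t, 1) ∧ θ (t, 1) < 5 * π / 2 := by
    have hs : ∀ t, (0 : ℝ) ≤ t → 0 < cos (θ (t, 1)) := by
      intro t ht
      apply posOf (t := t) (τ := 1)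
      rw [← Sre, hd1, Complex.sub_re]
      have := Ure t ht
      simp only [zp]
      linarith
    have := stay (S := Ici (0 : ℝ) ×ˢ ({1} : Set ℝ))
      ((convex_Ici _).prod (convex_singleton _)).isPreconnected hθc.continuousOn
      (lo := 3 * π / 2) (hi := 5 * π / 2) ?_ (z0 := (0, 1)) ⟨mem_Ici.2 le_rfl, rfl⟩
      ⟨h01, by linarith [(r1l 0 le_rfl).2]⟩
    · intro t ht
      exact this (t, 1) ⟨ht, rfl⟩
    · rintro ⟨t, τ⟩ ⟨ht, hτ⟩
      have hτ' : τ = 1 := hτ
      subst hτ'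
      have := hs t ht
      constructor
      · intro h; rw [h, s32] at this; exact lt_irrefl _ this
      · intro h; rw [h, s52] at this; exact lt_irrefl _ this
  -- column T
  have cpall : ∀ τ, -(π / 2) < θ (T, τ) ∧ θ (T, τ) < π / 2 := by
    have cp : ∀ τ, 0 < cos (θ (T, τ)) := by
      intro τ
      apply posOf (t := T) (τ := τ)
      rw [← Sre, Complex.sub_re, hU, C.ext_big C.β1 (by linarith), Complex.ofReal_re]
      have h2 := (abs_le.1 ((Complex.abs_re_le_norm (d τ)).trans (hK τ))).2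
      linarith
    have := stay (S := ({T} : Set ℝ) ×ˢ (univ : Set ℝ))
      ((convex_singleton _).prod convex_univ).isPreconnected hθc.continuousOn
      (lo := -(π / 2)) (hi := π / 2) ?_ (z0 := (T, 0)) ⟨rfl, mem_univ _⟩
      (r0r T (by linarith))
    · intro τ
      exact this (T, τ) ⟨rfl, mem_univ _⟩
    · rintro ⟨t, τ⟩ ⟨ht, -⟩
      have ht' : t = T := ht
      subst ht'
      have := cp τ
      constructor
      · intro h; rw [h, Real.cos_neg, Real.cos_pi_div_two] at this; exact lt_irrefl _ this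
      · intro h; rw [h, Real.cos_pi_div_two] at this; exact lt_irrefl _ this
  have f1 := (cpall 1).2
  have f2 := (r1r T (by linarith)).1
  linarith

lemma sub_Vp {S : Set ℂ} (hS : IsPreconnected S) (hSU : S ⊆ C.Uhᶜ) {x : ℂ} (hx : x ∈ S)
    (hxV : x ∈ C.Vp) : S ⊆ C.Vp := by
  have h := hS.subset_connectedComponentIn hx hSU
  have e : connectedComponentIn C.Uhᶜ x = C.Vp := (connectedComponentIn_eq hxV).symm
  rw [e] at h
  exact h

lemma not_Vp {S : Set ℂ} (hS : IsPreconnected S) (hSU : S ⊆ C.Uhᶜ) {x : ℂ} (hx : x ∈ S)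
    (hxV : x ∉ C.Vp) {y : ℂ} (hy : y ∈ S) : y ∉ C.Vp := fun h =>
  hxV (C.sub_Vp hS hSU hy h hx)

lemma GAp_Vp : GAp ⊆ C.Vp :=
  C.sub_Vp convex_GAp.isPreconnected C.GAp_sub zp_mem C.zp_mem_Vp

lemma GAm_Vp {z : ℂ} (hz : z ∈ GAm) : z ∉ C.Vp :=
  C.not_Vp convex_GAm.isPreconnected C.GAm_sub zm_mem C.zm_not_mem hz

/-- A bound of the upper arc. -/
lemma exists_top : ∃ K : ℝ, 0 < K ∧ ∀ t, |(C.β t).im| ≤ K := by
  obtain ⟨K, hK⟩ := (isCompact_Icc (a := (0 : ℝ)) (b := 1)).exists_bound_of_continuousOn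
    C.hβ.continuousOn
  refine ⟨max K 1, lt_max_of_lt_right one_pos, fun t => ?_⟩
  refine (Complex.abs_im_le_norm _).trans (le_max_of_le_left ?_)
  rcases le_total t 0 with h | h
  · rw [C.β0 t h, ← C.β0 0 le_rfl]; exact hK 0 ⟨le_rfl, zero_le_one⟩
  · rcases le_total t 1 with h' | h'
    · exact hK t ⟨h, h'⟩
    · rw [C.β1 t h', ← C.β1 1 le_rfl]; exact hK 1 ⟨zero_le_one, le_rfl⟩

lemma GBp_Vp : C.GBp ⊆ C.Vp := by
  obtain ⟨K, hK0, hK⟩ := C.exists_top
  have hℓ := C.hℓ
  have htop : {z : ℂ | K < z.im} ⊆ C.Vp := by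
    refine C.sub_Vp (conv_im_gt K).isPreconnected ?_ (x := ⟨-1, K + 1⟩) ?_ (C.GAp_Vp ?_)
    · intro z hz hU
      have hz' : K < z.im := hz
      rcases hU with (⟨t, rfl⟩ | h) | h
      · have := (abs_le.1 (hK t)).2; linarith
      · have := h.1; linarith
      · have := h.1; linarith
    · change K < K + 1; linarith
    · exact ⟨by norm_num, by change 0 < K + 1; linarith⟩
  refine C.sub_Vp C.convex_GBp.isPreconnected C.GBp_sub (x := ⟨C.ℓ + 1, K + 1⟩) ?_ (htop ?_)
  · exact ⟨by change C.ℓ < C.ℓ + 1; linarith, by change 0 < K + 1; linarith⟩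
  · change K < K + 1; linarith

lemma GBm_Vp {z : ℂ} (hz : z ∈ C.GBm) : z ∉ C.Vp := by
  obtain ⟨K, hK0, hK⟩ := C.exists_top
  have hℓ := C.hℓ
  have hbot : ∀ z ∈ {z : ℂ | z.im < -K}, z ∉ C.Vp := fun z hz => by
    refine C.not_Vp (conv_im_lt (-K)).isPreconnected ?_ (x := ⟨-1, -K - 1⟩) ?_ (C.GAm_Vp ?_) hz
    · intro z hz hU
      have hz' : z.im < -K := hz
      rcases hU with (⟨t, rfl⟩ | h) | h
      · have := (abs_le.1 (hK t)).1; linarith
      · have := h.1; linarith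
      · have := h.1; linarith
    · change -K - 1 < -K; linarith
    · exact ⟨by norm_num, by change -K - 1 < 0; linarith⟩
  refine C.not_Vp C.convex_GBm.isPreconnected C.GBm_sub (x := ⟨C.ℓ + 1, -K - 1⟩) ?_
    (hbot _ ?_) hz
  · exact ⟨by change C.ℓ < C.ℓ + 1; linarith, by change -K - 1 < 0; linarith⟩
  · change -K - 1 < -K; linarith

end Cfg

end Pool.MP_7ec17a_gt.R
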