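import Pool.Agent.Work.MP_7ec17a_gt_R.Loc

/-!
# The gate at `0`
-/

set_option autoImplicit false

open Set

namespace Pool.MP_7ec17a_gt.R

open Pool.MP_7ec17a_gt.T

lemma cont_rot (r : ℝ) : Continuous (rot r) := by
  have h : rot r = fun v : ℂ => (-(r * v.im) : ℝ) + (r * v.re : ℝ) * Complex.I := by
    funext v
    apply Complex.ext <;> simp [rot]
  rw [h]
  fun_prop

namespace Cfg

variable (C : Cfg)

/-- The extended lower arc. -/
noncomputable def L (s : ℝ) : ℂ := ext C.α s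

lemma continuous_L : Continuous C.L := continuous_ext C.hα

lemma L_mid {s : ℝ} (hs : s ∈ Icc (0 : ℝ) 1) : C.L s = C.α s := ext_mid C.α hs.1 hs.2

/-- Third vertex. -/
noncomputable def w (r s s' : ℝ) : ℂ := C.L s + rot r (C.L s' - C.L s)

/-- Fourth vertex. -/
noncomputable def q (r s s' : ℝ) : ℂ := C.L s' + rot r (C.L s' - C.L s)

lemma cont_w (r : ℝ) : Continuous fun z : ℝ × ℝ => C.w r z.1 z.2 := by
  have h1 := C.continuous_L
  have h2 := cont_rot r
  unfold w
  fun_prop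

lemma cont_q (r : ℝ) : Continuous fun z : ℝ × ℝ => C.q r z.1 z.2 := by
  have h1 := C.continuous_L
  have h2 := cont_rot r
  unfold q
  fun_prop

variable {C}

lemma Loc.ε_le (D : C.Loc) (hB : D.Below) (him : D.e.im < 0) : D.ε ≤ D.e.re := by
  obtain ⟨s1, hs1, hLA⟩ := hB
  have h1 := hLA s1 ⟨hs1.1.le, le_rfl⟩
  have hne : 0 < ‖C.α s1‖ := norm_pos_iff.2 (C.α_ne_zero hs1.1 hs1.2)
  have h2 := (C.α_re s1).1
  have h3 : -(C.α s1).im ≤ ‖C.α s1‖ :=
    (neg_le_abs _).trans (Complex.abs_im_le_norm _)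
  simp only [cr] at h1
  have h4 := mul_le_mul_of_nonneg_left h3 D.he1
  have h5 : D.ε * ‖C.α s1‖ ≤ D.e.re * ‖C.α s1‖ := by nlinarith
  exact le_of_mul_le_mul_right h5 hne

/-- The gate at `0`. -/
lemma Loc.gate (D : C.Loc) (hB : D.Below) {r : ℝ} (hr : 0 < r) : ∃ σ ∈ Ioo (0 : ℝ) 1,
    ∀ s ∈ Ico 0 σ, C.q r s σ ∈ C.Vp → C.w r s σ ∈ C.Vp := by
  have hεre := D.ε_le hB
  obtain ⟨s1, hs1, hLA⟩ := hB
  have hε := D.hε
  set ε := D.ε with hεd
  set e := D.e with he
  set η : ℝ := ε / 2 with hη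
  have hη0 : 0 < η := by positivity
  set c : ℝ := min (1 / 4) (η * ε / (4 * ((1 + 2 * r) * (2 * r + η)))) with hc
  have hc0 : 0 < c := by positivity
  have hc3 : c * ((1 + 2 * r) * (2 * r + η)) ≤ η * ε / 4 := by
    have h := min_le_right (1 / 4) (η * ε / (4 * ((1 + 2 * r) * (2 * r + η))))
    rw [← hc, le_div_iff₀ (by positivity)] at h
    linarith
  obtain ⟨ρ, hT⟩ := D.thin hc0 (min_le_left _ _)
  have hρp : 0 < ρ := hT.1
  -- a short initial piece
  obtain ⟨d, hd, hd'⟩ := C.exists_short (ρ := ρ / (2 * (1 + 2 * r))) (by positivity)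
  set s2 : ℝ := min s1 (min (1 / 2) d) with hs2
  have hs20 : 0 < s2 := lt_min hs1.1 (lt_min (by norm_num) hd)
  have hs21 : s2 ≤ s1 := min_le_left _ _
  have hs22 : s2 ≤ 1 / 2 := (min_le_right _ _).trans (min_le_left _ _)
  have hs23 : s2 ≤ d := (min_le_right _ _).trans (min_le_right _ _)
  have hsmall : ∀ s ∈ Icc 0 s2, ‖C.α s‖ < ρ / (2 * (1 + 2 * r)) := fun s hs =>
    hd' s ⟨hs.1, hs.2.trans hs23⟩
  obtain ⟨sR, hsR, hRmax⟩ := (isCompact_Icc (a := (0 : ℝ)) (b := s2)).exists_isMaxOn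
    ⟨0, ⟨le_rfl, hs20.le⟩⟩ (C.hα.norm.continuousOn)
  set R : ℝ := ‖C.α sR‖ with hR
  have hRle : ∀ s ∈ Icc 0 s2, ‖C.α s‖ ≤ R := fun s hs => hRmax hs
  have hRsmall := hsmall sR hsR
  have hRpos : 0 < R := lt_of_lt_of_le (norm_pos_iff.2 (C.α_ne_zero hs20 (by linarith)))
    (hRle s2 ⟨hs20.le, le_rfl⟩)
  have hDc : ContinuousOn (fun s => -cr e (C.α s) - η * dt e (C.α s)) (Icc 0 s2) := by
    have h1 := (continuous_cr e).comp C.hα
    have h2 := (continuous_dt e).comp C.hα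
    exact (h1.neg.sub (h2.const_smul η)).continuousOn
  obtain ⟨σ, hσ, hσmax⟩ := (isCompact_Icc (a := (0 : ℝ)) (b := s2)).exists_isMaxOn
    ⟨0, ⟨le_rfl, hs20.le⟩⟩ hDc
  have hσle : ∀ s ∈ Icc 0 s2, -cr e (C.α s) - η * dt e (C.α s) ≤
      -cr e (C.α σ) - η * dt e (C.α σ) := fun s hs => hσmax hs
  have hD : ε / 2 * R ≤ -cr e (C.α σ) - η * dt e (C.α σ) := by
    refine le_trans ?_ (hσle sR hsR)
    have h1 := hLA sR ⟨hsR.1, hsR.2.trans hs21⟩
    have h2 := (abs_le.1 (abs_dt_le D.he (C.α sR))).2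
    rw [← hR] at h1 h2
    nlinarith
  have hσ0 : 0 < σ := by
    rcases hσ.1.lt_or_eq with h | h
    · exact h
    · exfalso
      rw [← h, C.α0 0 le_rfl] at hD
      simp only [cr, dt, Complex.zero_re, Complex.zero_im] at hD
      nlinarith
  refine ⟨σ, ⟨hσ0, by linarith [hσ.2]⟩, fun s hs hq => ?_⟩
  by_contra hw
  have hsI : s ∈ Icc 0 s2 := ⟨hs.1, by linarith [hs.2, hσ.2]⟩
  have hLs : C.L s = C.α s := C.L_mid ⟨hs.1, by linarith [hs.2, hσ.2]⟩
  have hLσ : C.L σ = C.α σ := C.L_mid ⟨hσ0.le, by linarith [hσ.2]⟩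
  have hdp := D.hd s
  have hdp' := D.hd σ
  set p := C.α s with hp
  set p' := C.α σ with hp'
  set v := p' - p with hv
  have ew : C.w r s σ = p + rot r v := by unfold w; rw [hLs, hLσ]
  have eq : C.q r s σ = p' + rot r v := by unfold q; rw [hLs, hLσ]
  rw [ew] at hw
  rw [eq] at hq
  have hR' : (1 + 2 * r) * R < ρ := by
    rw [lt_div_iff₀ (by positivity)] at hRsmall
    nlinarith
  have nv : ‖v‖ ≤ 2 * R := by
    refine (norm_sub_le _ _).trans ?_
    have := hRle s hsI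
    have := hRle σ hσ
    linarith
  have nw : ‖p + rot r v‖ ≤ (1 + 2 * r) * R := by
    refine (norm_add_le _ _).trans ?_
    rw [norm_rot hr.le]
    have := hRle s hsI
    nlinarith
  have nq : ‖p' + rot r v‖ ≤ (1 + 2 * r) * R := by
    refine (norm_add_le _ _).trans ?_
    rw [norm_rot hr.le]
    have := hRle σ hσ
    nlinarith
  have htilt := hσle s hsI
  rw [← hp] at htilt
  have v1 : cr e v = cr e p' - cr e p := by rw [hv, cr_sub]
  have v2 : dt e v = dt e p' - dt e p := by rw [hv, dt_sub]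
  set V1 := dt e v with hV1
  have hV2 : cr e v ≤ -(η * V1) := by rw [v1, v2]; linarith
  have crq : cr e (p' + rot r v) = cr e p' + r * V1 := by rw [cr_add, cr_rot]
  have dtq : dt e (p' + rot r v) = dt e p' - r * cr e v := by rw [dt_add, dt_rot]; ring
  have crw : cr e (p + rot r v) = cr e p + r * V1 := by rw [cr_add, cr_rot]
  have dtw : dt e (p + rot r v) = dt e p - r * cr e v := by rw [dt_add, dt_rot]; ring
  have hrV : r * (η * V1) ≤ -(r * cr e v) := by
    have := mul_le_mul_of_nonneg_left hV2 hr.le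
    linarith
  have hDpos : 0 < ε / 2 * R := by positivity
  have hηd : 0 ≤ η * dt e p' := mul_nonneg hη0.le hdp'
  have tiltq : ε / 2 * cr e (p' + rot r v) < dt e (p' + rot r v) := by
    rw [crq, dtq, ← hη]
    have h1 : η * (ε / 2 * R) ≤ η * (-cr e p' - η * dt e p') :=
      mul_le_mul_of_nonneg_left hD hη0.le
    have h2 : 0 < η * (ε / 2 * R) := by positivity
    have h3 : 0 ≤ η * (η * dt e p') := mul_nonneg hη0.le hηd
    nlinarith
  have iq : -(c * ((1 + 2 * r) * R)) ≤ cr e (p' + rot r v) := by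
    by_contra hlt
    push Not at hlt
    have hlt' : cr e (p' + rot r v) < -(c * ‖p' + rot r v‖) :=
      lt_of_lt_of_le hlt (neg_le_neg (mul_le_mul_of_nonneg_left nq hc0.le))
    refine Cfg.down hT D.he D.he1 (nq.trans_lt hR') hlt' ?_ hq
    refine helper_down' D.he D.hε hεre ?_ tiltq
    have := mul_nonneg hc0.le (norm_nonneg (p' + rot r v))
    linarith
  have kc : c * ((1 + 2 * r) * R) ≤ ε / 4 * R := by
    have h1 : c * (1 + 2 * r) * η ≤ ε / 4 * η := by
      have : 0 ≤ c * ((1 + 2 * r) * (2 * r)) := by positivity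
      nlinarith
    have h2 := le_of_mul_le_mul_right h1 hη0
    nlinarith
  have k2 : ε / 2 * R - c * ((1 + 2 * r) * R) ≤ r * V1 := by
    rw [crq] at iq
    linarith
  have hV1pos : 0 < r * V1 := by nlinarith
  have dtwpos : 0 < dt e (p + rot r v) := by
    rw [dtw]
    have h1 : 0 < η * (r * V1) := mul_pos hη0 hV1pos
    nlinarith
  have iw : cr e (p + rot r v) ≤ c * ((1 + 2 * r) * R) := by
    by_contra hlt
    push Not at hlt
    have hlt' : c * ‖p + rot r v‖ < cr e (p + rot r v) :=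
      lt_of_le_of_lt (mul_le_mul_of_nonneg_left nw hc0.le) hlt
    refine hw (Cfg.up hT D.he D.he1 (nw.trans_lt hR') hlt' ?_)
    refine helper_up D.he1 ?_ (Or.inl dtwpos)
    have := mul_nonneg hc0.le (norm_nonneg (p + rot r v))
    linarith
  rw [crw] at iw
  rw [crq] at iq
  have k1 : η * V1 ≤ 2 * (c * ((1 + 2 * r) * R)) := by linarith
  have k3 : η * (ε / 2 * R - c * ((1 + 2 * r) * R)) ≤ r * (2 * (c * ((1 + 2 * r) * R))) := by
    have h1 := mul_le_mul_of_nonneg_left k2 hη0.le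
    have h2 := mul_le_mul_of_nonneg_left k1 hr.le
    nlinarith
  have k4 : η * ε / 2 * R ≤ c * ((1 + 2 * r) * (2 * r + η)) * R := by nlinarith
  have k5 := mul_le_mul_of_nonneg_right hc3 hRpos.le
  have k6 : 0 < η * ε * R := by positivity
  nlinarith

end Cfg

end Pool.MP_7ec17a_gt.R
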