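import Pool.Agent.Work.MP_7ec17a_gt_R.Side

/-!
# Half-tangents, and the two sides of the extended upper arc
-/

set_option autoImplicit false

open Set

namespace Pool.MP_7ec17a_gt.R

open Pool.MP_7ec17a_gt.T

namespace Cfg

variable {C : Cfg}

/-- Half-tangent of the upper arc at `0`; the lower arc keeps away from it. -/
structure Loc (C : Cfg) where
  /-- half-tangent -/
  e : ℂ
  he : ‖e‖ = 1
  he1 : 0 ≤ e.re
  hd : ∀ s, 0 ≤ dt e (C.α s)
  TA : ∀ c : ℝ, 0 < c → ∃ ρ : ℝ, 0 < ρ ∧ ∀ t, ‖C.β t‖ < ρ →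
    |cr e (C.β t)| ≤ c * ‖C.β t‖ ∧ 0 ≤ dt e (C.β t)
  /-- opening -/
  ε : ℝ
  hε : 0 < ε
  LA : ∃ s1 ∈ Ioc (0 : ℝ) 1, ∀ s ∈ Icc 0 s1, ε * ‖C.α s‖ ≤ |cr e (C.α s)|

/-- The lower arc starts below the upper one. -/
def Loc.Below (D : C.Loc) : Prop :=
  ∃ s1 ∈ Ioc (0 : ℝ) 1, ∀ s ∈ Icc 0 s1, cr D.e (C.α s) ≤ -(D.ε * ‖C.α s‖)

/-- The lower arc is not in the upper component. -/
def Neg (C : Cfg) : Prop := ∀ s ∈ Ioo (0 : ℝ) 1, C.α s ∉ C.Vp

lemma Loc.thin (D : C.Loc) {c : ℝ} (hc : 0 < c) (hc4 : c ≤ 1 / 4) :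
    ∃ ρ, C.Thin D.e ρ c := by
  obtain ⟨ρ0, hρ0, hρ⟩ := D.TA c hc
  exact ⟨min ρ0 C.ℓ, lt_min hρ0 C.hℓ, hc, hc4, min_le_right _ _, fun t ht =>
    hρ t (ht.trans_le (min_le_left _ _))⟩

lemma α_ne_zero {s : ℝ} (h0 : 0 < s) (h1 : s ≤ 1) : C.α s ≠ 0 := by
  intro h
  have : C.α s = C.α 0 := by rw [h, C.α0 0 le_rfl]
  have := C.inj ⟨h0.le, h1⟩ ⟨le_rfl, zero_le_one⟩ this
  linarith

lemma α_ne_ℓ {s : ℝ} (h0 : 0 ≤ s) (h1 : s < 1) : C.α s ≠ C.ℓ := by
  intro h
  have : C.α s = C.α 1 := by rw [h, C.α1 1 le_rfl]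
  have := C.inj ⟨h0, h1.le⟩ ⟨zero_le_one, le_rfl⟩ this
  linarith

/-- The open lower arc avoids the extended upper arc. -/
lemma α_not_Uh {s : ℝ} (hs : s ∈ Ioo (0 : ℝ) 1) : C.α s ∉ C.Uh := by
  rintro ((⟨t, ht⟩ | h) | h)
  · exact C.disj s hs t ht.symm
  · apply C.α_ne_zero hs.1 hs.2.le
    have h1 := (C.α_re s).1
    have e := real_eq h.1 (le_antisymm h.2 h1)
    simpa using e
  · apply C.α_ne_ℓ hs.1.le hs.2
    exact real_eq h.1 (le_antisymm (C.α_re s).2 h.2)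

/-- A short initial piece of the lower arc. -/
lemma exists_short {ρ : ℝ} (hρ : 0 < ρ) : ∃ d : ℝ, 0 < d ∧ ∀ s ∈ Icc 0 d, ‖C.α s‖ < ρ := by
  obtain ⟨d, hd, hdα⟩ := Metric.continuousAt_iff.1 (C.hα.continuousAt (x := 0)) ρ hρ
  refine ⟨d / 2, by positivity, fun s hs => ?_⟩
  have h := hdα (x := s) (by
    rw [Real.dist_eq, sub_zero, abs_of_nonneg hs.1]
    linarith [hs.2])
  rwa [C.α0 0 le_rfl, dist_zero_right] at h

/-- The lower arc is not above. -/
lemma Loc.neg (D : C.Loc) (hB : D.Below) : C.Neg := by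
  intro s hs
  obtain ⟨s1, hs1, hLA⟩ := hB
  have hε := D.hε
  set c : ℝ := min (1 / 4) (D.ε / 2) with hc
  have hc0 : 0 < c := by positivity
  obtain ⟨ρ, hT⟩ := D.thin hc0 (min_le_left _ _)
  obtain ⟨d, hd, hd'⟩ := C.exists_short hT.1
  set s' : ℝ := min (min s1 (1 / 2)) d with hs'
  have h1 : 0 < s' := lt_min (lt_min hs1.1 (by norm_num)) hd
  have h2 : s' ≤ s1 := (min_le_left _ _).trans (min_le_left _ _)
  have h3 : s' ≤ 1 / 2 := (min_le_left _ _).trans (min_le_right _ _)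
  have h4 : s' ≤ d := min_le_right _ _
  have hne : 0 < ‖C.α s'‖ := norm_pos_iff.2 (C.α_ne_zero h1 (by linarith))
  have h5 := hLA s' ⟨h1.le, h2⟩
  have hc2 : c ≤ D.ε / 2 := min_le_right _ _
  have hnot : C.α s' ∉ C.Vp := by
    apply Cfg.down hT D.he D.he1 (hd' s' ⟨h1.le, h4⟩)
    · nlinarith
    · refine helper_down D.he1 ?_ (Or.inr (C.α_re s').1)
      nlinarith
  refine C.not_Vp (S := C.α '' Ioo 0 1) (isPreconnected_Ioo.image _ C.hα.continuousOn) ?_
    (mem_image_of_mem _ ⟨h1, by linarith⟩) hnot (mem_image_of_mem _ hs)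
  rintro _ ⟨t, ht, rfl⟩
  exact C.α_not_Uh ht

/-- Conversely. -/
lemma Loc.below (D : C.Loc) (hN : C.Neg) : D.Below := by
  obtain ⟨s1, hs1, hLA⟩ := D.LA
  have hε := D.hε
  set c : ℝ := min (1 / 4) (D.ε / 2) with hc
  have hc0 : 0 < c := by positivity
  obtain ⟨ρ, hT⟩ := D.thin hc0 (min_le_left _ _)
  obtain ⟨d, hd, hd'⟩ := C.exists_short hT.1
  have hc2 : c ≤ D.ε / 2 := min_le_right _ _
  refine ⟨min (min s1 (1 / 2)) d, ⟨lt_min (lt_min hs1.1 (by norm_num)) hd, ?_⟩, fun s hs => ?_⟩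
  · refine (min_le_left _ _).trans ((min_le_right _ _).trans (by norm_num))
  · have h2 : s ≤ s1 := hs.2.trans ((min_le_left _ _).trans (min_le_left _ _))
    have h3 : s ≤ 1 / 2 := hs.2.trans ((min_le_left _ _).trans (min_le_right _ _))
    have h4 : s ≤ d := hs.2.trans (min_le_right _ _)
    have h5 := hLA s ⟨hs.1, h2⟩
    rcases hs.1.lt_or_eq with h | h
    · have hne : 0 < ‖C.α s‖ := norm_pos_iff.2 (C.α_ne_zero h (by linarith))
      rcases le_total 0 (cr D.e (C.α s)) with h6 | h6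
      · exfalso
        rw [abs_of_nonneg h6] at h5
        apply hN s ⟨h, by linarith⟩
        apply Cfg.up hT D.he D.he1 (hd' s ⟨h.le, h4⟩)
        · nlinarith
        · refine helper_up D.he1 ?_ (Or.inr (C.α_re s).1)
          nlinarith
      · rw [abs_of_nonpos h6] at h5
        linarith
    · rw [← h, C.α0 0 le_rfl, norm_zero, mul_zero, neg_zero]
      simp [cr]

variable (C)

lemma frontier_Vp : frontier C.Vp ⊆ C.Uh := by
  intro z hz
  by_contra hU
  have hopen : IsOpen (connectedComponentIn C.Uhᶜ z) :=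
    C.isClosed_Uh.isOpen_compl.connectedComponentIn
  have hzW : z ∈ connectedComponentIn C.Uhᶜ z := mem_connectedComponentIn hU
  obtain ⟨y, hy1, hy2⟩ := mem_closure_iff.1 hz.1 _ hopen hzW
  have hsub := C.sub_Vp isPreconnected_connectedComponentIn (connectedComponentIn_subset _ _)
    hy1 hy2
  have hzV : z ∈ C.Vp := hsub hzW
  have := hz.2
  rw [C.isOpen_Vp.interior_eq] at this
  exact this hzV

open Classical in
/-- The signed distance to the extended upper arc. -/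
noncomputable def side (z : ℂ) : ℝ :=
  if z ∈ C.Vp then Metric.infDist z C.Uh else -Metric.infDist z C.Uh

lemma Uh_nonempty : C.Uh.Nonempty := ⟨_, C.ext_β_mem 0⟩

lemma infDist_pos {z : ℂ} (hz : z ∉ C.Uh) : 0 < Metric.infDist z C.Uh :=
  (C.isClosed_Uh.notMem_iff_infDist_pos C.Uh_nonempty).1 hz

lemma side_zero {z : ℂ} : C.side z = 0 ↔ z ∈ C.Uh := by
  constructor
  · intro h
    by_contra hz
    have hp := C.infDist_pos hz
    unfold side at h
    split_ifs at h <;> linarith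
  · intro h
    have := Metric.infDist_zero_of_mem h
    unfold side
    split_ifs <;> simp [this]

lemma side_pos {z : ℂ} (hz : z ∈ C.Vp) : 0 < C.side z := by
  have hU : z ∉ C.Uh := connectedComponentIn_subset _ _ hz
  unfold side
  rw [if_pos hz]
  exact C.infDist_pos hU

lemma side_neg {z : ℂ} (hU : z ∉ C.Uh) (hz : z ∉ C.Vp) : C.side z < 0 := by
  unfold side
  rw [if_neg hz]
  have := C.infDist_pos hU
  linarith

lemma mem_of_side_pos {z : ℂ} (h : 0 < C.side z) : z ∈ C.Vp := by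
  by_contra hz
  unfold side at h
  rw [if_neg hz] at h
  have : 0 ≤ Metric.infDist z C.Uh := Metric.infDist_nonneg
  linarith

lemma not_mem_of_side_neg {z : ℂ} (h : C.side z < 0) : z ∉ C.Vp := fun hz => by
  have := C.side_pos hz
  linarith

lemma continuous_side : Continuous C.side := by
  classical
  have h : C.side = fun z => if z ∈ C.Vp then Metric.infDist z C.Uh
      else -Metric.infDist z C.Uh := by
    funext z
    unfold side
    congr
  rw [h]
  refine Continuous.if ?_ (Metric.continuous_infDist_pt _) (Metric.continuous_infDist_pt _).neg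
  intro z hz
  have : Metric.infDist z C.Uh = 0 := Metric.infDist_zero_of_mem (C.frontier_Vp hz)
  rw [this, neg_zero]

end Cfg

end Pool.MP_7ec17a_gt.R
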