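import Pool.Agent.Work.MP_7ec17a_gt_R.Gate

/-!
# Exchanging the two ends
-/

set_option autoImplicit false

open Set

namespace Pool.MP_7ec17a_gt.R

open Pool.MP_7ec17a_gt.T

/-- Reflection exchanging `0` and `ℓ`. -/
noncomputable def flip (ℓ : ℝ) (z : ℂ) : ℂ := (ℓ : ℂ) - (starRingEnd ℂ) z

lemma flip_re (ℓ : ℝ) (z : ℂ) : (flip ℓ z).re = ℓ - z.re := by simp [flip]

lemma flip_im (ℓ : ℝ) (z : ℂ) : (flip ℓ z).im = z.im := by simp [flip]

lemma flip_flip (ℓ : ℝ) (z : ℂ) : flip ℓ (flip ℓ z) = z := by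
  apply Complex.ext
  · rw [flip_re, flip_re]; ring
  · rw [flip_im, flip_im]

lemma flip_inj {ℓ : ℝ} {z w : ℂ} (h : flip ℓ z = flip ℓ w) : z = w := by
  rw [← flip_flip ℓ z, h, flip_flip]

lemma continuous_flip (ℓ : ℝ) : Continuous (flip ℓ) :=
  continuous_const.sub Complex.continuous_conj

lemma flip_zero (ℓ : ℝ) : flip ℓ 0 = ℓ := by simp [flip]

lemma flip_self (ℓ : ℝ) : flip ℓ (ℓ : ℂ) = 0 := by simp [flip]

namespace Cfg

variable (C : Cfg)

/-- The reflected configuration. -/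
noncomputable def refl : Cfg where
  α s := flip C.ℓ (C.α (1 - s))
  β t := flip C.ℓ (C.β (1 - t))
  ℓ := C.ℓ
  hℓ := C.hℓ
  hα := (continuous_flip _).comp (C.hα.comp (by fun_prop))
  hβ := (continuous_flip _).comp (C.hβ.comp (by fun_prop))
  α0 s hs := by rw [C.α1 (1 - s) (by linarith), flip_self]
  α1 s hs := by rw [C.α0 (1 - s) (by linarith), flip_zero]
  β0 s hs := by rw [C.β1 (1 - s) (by linarith), flip_self]
  β1 s hs := by rw [C.β0 (1 - s) (by linarith), flip_zero]
  R0 s t := by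
    have h := C.R1 (1 - s) (1 - t)
    simp only [dt, Complex.sub_re, Complex.sub_im, Complex.ofReal_re, Complex.ofReal_im,
      flip_re, flip_im] at h ⊢
    linarith
  R1 s t := by
    have h := C.R0 (1 - s) (1 - t)
    simp only [dt, Complex.sub_re, Complex.sub_im, Complex.ofReal_re, Complex.ofReal_im,
      flip_re, flip_im] at h ⊢
    linarith
  inj := by
    intro s hs t ht h
    have h1 := flip_inj h
    have h2 := C.inj ⟨by linarith [hs.2], by linarith [hs.1]⟩
      ⟨by linarith [ht.2], by linarith [ht.1]⟩ h1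
    linarith
  disj s hs t h := C.disj (1 - s) ⟨by linarith [hs.2], by linarith [hs.1]⟩ (1 - t) (flip_inj h)

lemma refl_Uh {z : ℂ} : z ∈ C.refl.Uh ↔ flip C.ℓ z ∈ C.Uh := by
  constructor
  · rintro ((⟨t, rfl⟩ | h) | h)
    · exact Or.inl (Or.inl ⟨1 - t, (flip_flip _ _).symm⟩)
    · refine Or.inr ⟨?_, ?_⟩
      · rw [flip_im]; exact h.1
      · rw [flip_re]; linarith [h.2]
    · refine Or.inl (Or.inr ⟨?_, ?_⟩)
      · rw [flip_im]; exact h.1
      · have h2 : C.ℓ ≤ z.re := h.2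
        rw [flip_re]; linarith
  · rintro ((⟨t, ht⟩ | h) | h)
    · refine Or.inl (Or.inl ⟨1 - t, ?_⟩)
      change flip C.ℓ (C.β (1 - (1 - t))) = z
      rw [sub_sub_cancel, ht, flip_flip]
    · have h1 := h.1
      have h2 := h.2
      rw [flip_im] at h1
      rw [flip_re] at h2
      exact Or.inr ⟨h1, by change C.ℓ ≤ z.re; linarith⟩
    · have h1 := h.1
      have h2 := h.2
      rw [flip_im] at h1
      rw [flip_re] at h2
      exact Or.inl (Or.inr ⟨h1, by linarith⟩)

lemma refl_Vp {z : ℂ} : z ∈ C.refl.Vp ↔ flip C.ℓ z ∈ C.Vp := by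
  have hz : flip C.ℓ zp ∈ C.GBp := by
    refine ⟨?_, ?_⟩
    · rw [flip_re]; change C.ℓ < C.ℓ - (-1); linarith
    · rw [flip_im]; exact one_pos
  constructor
  · intro h
    refine C.sub_Vp (S := flip C.ℓ '' C.refl.Vp)
      (isPreconnected_connectedComponentIn.image _ (continuous_flip _).continuousOn) ?_
      (mem_image_of_mem _ C.refl.zp_mem_Vp) (C.GBp_Vp hz) (mem_image_of_mem _ h)
    rintro _ ⟨y, hy, rfl⟩ hU
    exact connectedComponentIn_subset _ _ hy (C.refl_Uh.2 hU)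
  · intro h
    have e : z = flip C.ℓ (flip C.ℓ z) := (flip_flip _ _).symm
    rw [e]
    refine C.refl.sub_Vp (S := flip C.ℓ '' C.Vp)
      (isPreconnected_connectedComponentIn.image _ (continuous_flip _).continuousOn) ?_
      (mem_image_of_mem _ C.zp_mem_Vp) (C.refl.GBp_Vp hz) (mem_image_of_mem _ h)
    rintro _ ⟨y, hy, rfl⟩ hU
    have := C.refl_Uh.1 hU
    rw [flip_flip] at this
    exact connectedComponentIn_subset _ _ hy this

lemma refl_Neg (h : C.Neg) : C.refl.Neg := by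
  intro s hs hV
  have h1 := C.refl_Vp.1 hV
  change flip C.ℓ (flip C.ℓ (C.α (1 - s))) ∈ C.Vp at h1
  rw [flip_flip] at h1
  exact h (1 - s) ⟨by linarith [hs.2], by linarith [hs.1]⟩ h1

lemma refl_L (s : ℝ) : C.refl.L s = flip C.ℓ (C.L (1 - s)) := by
  have e : min s 0 + max (s - 1) 0 = -(min (1 - s) 0 + max (1 - s - 1) 0) := by
    have e1 : min (1 - s) 0 = -max (s - 1) 0 := by
      rcases le_total s 1 with h | h
      · rw [min_eq_right (by linarith), max_eq_right (by linarith), neg_zero]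
      · rw [min_eq_left (by linarith), max_eq_left (by linarith)]; ring
    have e2 : max (1 - s - 1) 0 = -min s 0 := by
      rcases le_total s 0 with h | h
      · rw [max_eq_left (by linarith), min_eq_left h]; ring
      · rw [max_eq_right (by linarith), min_eq_right h, neg_zero]
    rw [e1, e2]; ring
  change flip C.ℓ (C.α (1 - s)) + ((min s 0 + max (s - 1) 0 : ℝ) : ℂ) =
    flip C.ℓ (C.α (1 - s) + ((min (1 - s) 0 + max (1 - s - 1) 0 : ℝ) : ℂ))
  rw [e]
  apply Complex.ext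
  · rw [Complex.add_re, flip_re, flip_re, Complex.add_re, Complex.ofReal_re, Complex.ofReal_re]
    ring
  · rw [Complex.add_im, flip_im, flip_im, Complex.add_im, Complex.ofReal_im, Complex.ofReal_im]

lemma refl_w (r s s' : ℝ) : C.refl.w r s s' = flip C.ℓ (C.q r (1 - s') (1 - s)) := by
  unfold w q
  rw [C.refl_L, C.refl_L]
  apply Complex.ext
  · simp only [Complex.add_re, flip_re, rot, Complex.sub_im, flip_im]; ring
  · simp only [Complex.add_im, flip_im, rot, Complex.sub_re, flip_re]; ring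

lemma refl_q (r s s' : ℝ) : C.refl.q r s s' = flip C.ℓ (C.w r (1 - s') (1 - s)) := by
  unfold w q
  rw [C.refl_L, C.refl_L]
  apply Complex.ext
  · simp only [Complex.add_re, flip_re, rot, Complex.sub_im, flip_im]; ring
  · simp only [Complex.add_im, flip_im, rot, Complex.sub_re, flip_re]; ring

/-- The gate at `ℓ`. -/
lemma gateB (hN : C.Neg) (D : C.refl.Loc) {r : ℝ} (hr : 0 < r) : ∃ σ ∈ Ioo (0 : ℝ) 1,
    ∀ s ∈ Ioc σ 1, C.w r σ s ∈ C.Vp → C.q r σ s ∈ C.Vp := by
  obtain ⟨σ, hσ, h⟩ := D.gate (D.below (C.refl_Neg hN)) hr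
  refine ⟨1 - σ, ⟨by linarith [hσ.2], by linarith [hσ.1]⟩, fun s hs hw => ?_⟩
  have h1 := h (1 - s) ⟨by linarith [hs.2], by linarith [hs.1]⟩
  rw [C.refl_Vp, C.refl_Vp, C.refl_w, C.refl_q, flip_flip, flip_flip, sub_sub_cancel] at h1
  exact h1 hw

end Cfg

end Pool.MP_7ec17a_gt.R
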