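import Pool.Agent.Work.MP_7ec17a_gt_R.Cross
import Pool.Agent.Work.MP_7ec17a_gt_T.Side

/-!
# The two corners at `0`, and the two sides of the extended upper arc
-/

set_option autoImplicit false

open Set

namespace Pool.MP_7ec17a_gt.R

open Pool.MP_7ec17a_gt.T

lemma e_sq {e : ℂ} (he : ‖e‖ = 1) : e.re * e.re + e.im * e.im = 1 := by
  rw [← Complex.normSq_apply, Complex.normSq_eq_norm_sq, he, one_pow]

lemma im_eq {e : ℂ} (he : ‖e‖ = 1) (z : ℂ) : z.im = dt e z * e.im + cr e z * e.re := by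
  have h := e_sq he
  have : dt e z * e.im + cr e z * e.re = (e.re * e.re + e.im * e.im) * z.im := by
    simp only [dt, cr]; ring
  rw [this, h, one_mul]

lemma norm_le_of {z : ℂ} {M : ℝ} (hM : 0 ≤ M) (h : z.re * z.re + z.im * z.im ≤ M ^ 2) :
    ‖z‖ ≤ M := by
  apply le_of_sq_le_sq _ hM
  rw [← Complex.normSq_eq_norm_sq, Complex.normSq_apply]
  exact h

lemma norm_smul_le {x : ℝ} (hx : 0 ≤ x) {z : ℂ} {M : ℝ} (h : ‖z‖ ≤ M) : ‖x • z‖ ≤ x * M := by
  rw [norm_smul, Real.norm_eq_abs, abs_of_nonneg hx]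
  exact mul_le_mul_of_nonneg_left h hx

lemma re_le_one {e : ℂ} (he : ‖e‖ = 1) : e.re ≤ 1 :=
  (Complex.re_le_norm e).trans he.le

/-- Which of the two sides of the tail. -/
lemma helper_up {e z : ℂ} (he1 : 0 ≤ e.re) (hz : 0 < cr e z) (h : 0 < dt e z ∨ 0 ≤ z.re) :
    e.im ≤ 0 ∨ 0 < z.im := by
  by_contra hno
  push Not at hno
  obtain ⟨h1, h2⟩ := hno
  simp only [cr] at hz
  have h3 := mul_nonneg he1 (neg_nonneg.2 h2)
  have h4 : z.re < 0 := by
    by_contra h5
    push Not at h5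
    have := mul_nonneg h1.le h5
    nlinarith
  rcases h with h | h
  · simp only [dt] at h
    have := mul_nonneg he1 (neg_nonneg.2 h4.le)
    have := mul_nonneg h1.le (neg_nonneg.2 h2)
    nlinarith
  · linarith

lemma helper_down {e z : ℂ} (he1 : 0 ≤ e.re) (hz : cr e z < 0) (h : 0 < dt e z ∨ 0 ≤ z.re) :
    0 ≤ e.im ∨ z.im < 0 := by
  by_contra hno
  push Not at hno
  obtain ⟨h1, h2⟩ := hno
  simp only [cr] at hz
  have h3 := mul_nonneg he1 h2
  have h4 : z.re < 0 := by
    by_contra h5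
    push Not at h5
    have := mul_nonneg (neg_nonneg.2 h1.le) h5
    nlinarith
  rcases h with h | h
  · simp only [dt] at h
    have := mul_nonneg he1 (neg_nonneg.2 h4.le)
    have := mul_nonneg (neg_nonneg.2 h1.le) h2
    nlinarith
  · linarith

lemma helper_down' {e z : ℂ} (he : ‖e‖ = 1) {ε : ℝ} (hε : 0 < ε) (hε' : e.im < 0 → ε ≤ e.re)
    (hz : cr e z < 0) (h : ε / 2 * cr e z < dt e z) : 0 ≤ e.im ∨ z.im < 0 := by
  rcases le_or_gt 0 e.im with h1 | h1
  · exact Or.inl h1
  · right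
    have h2 := hε' h1
    have h3 : -1 ≤ e.im := by
      have := (abs_le.1 ((Complex.abs_im_le_norm e).trans he.le)).1
      linarith
    rw [im_eq he z]
    have h4 : dt e z * e.im ≤ ε / 2 * cr e z * e.im := by nlinarith
    have h5 : 0 < ε / 2 * e.im + e.re := by nlinarith
    have h6 := mul_neg_of_neg_of_pos hz h5
    nlinarith

lemma cr_one (z : ℂ) : cr 1 z = z.im := by simp [cr]

namespace Cfg

variable (C : Cfg)

/-- The upper arc is thin near `0`. -/
def Thin (e : ℂ) (ρ c : ℝ) : Prop :=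
  0 < ρ ∧ 0 < c ∧ c ≤ 1 / 4 ∧ ρ ≤ C.ℓ ∧
    ∀ t, ‖C.β t‖ < ρ → |cr e (C.β t)| ≤ c * ‖C.β t‖ ∧ 0 ≤ dt e (C.β t)

variable {C}

lemma S1_far {z : ℂ} (hz : z ∈ C.S1) : C.ℓ ≤ ‖z‖ := hz.2.trans (Complex.re_le_norm z)

/-- The upper corner. -/
lemma up {e : ℂ} {ρ c : ℝ} (hT : C.Thin e ρ c) (he : ‖e‖ = 1) (he1 : 0 ≤ e.re) {z : ℂ}
    (hz : ‖z‖ < ρ) (hz' : c * ‖z‖ < cr e z) (hz'' : e.im ≤ 0 ∨ 0 < z.im) : z ∈ C.Vp := by
  obtain ⟨hρ0, hc0, hc4, hρℓ, hβ⟩ := hT
  have hsq := e_sq he
  set η : ℝ := ρ / 4 with hη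
  have hη0 : 0 < η := by positivity
  have hzm : z ∈ Cfg.cone 0 e ρ c := ⟨by rw [sub_zero]; exact hz, by rw [sub_zero]; exact hz'⟩
  -- the last link
  set x2 : ℂ := η • (⟨-1, 1⟩ : ℂ) with hx2
  have nx2 : ‖x2‖ ≤ η * 2 := by
    apply norm_smul_le hη0.le
    apply norm_le_of (by norm_num)
    norm_num
  have x2G : x2 ∈ GAp := by
    refine ⟨?_, ?_⟩
    · simp only [hx2, Complex.smul_re, smul_eq_mul]; linarith
    · simp only [hx2, Complex.smul_im, smul_eq_mul]; linarith
  rcases le_or_gt e.im 0 with him | him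
  · set x1 : ℂ := η • (⟨-e.im, 1 + e.re⟩ : ℂ) with hx1
    have nx1 : ‖x1‖ ≤ η * 2 := by
      apply norm_smul_le hη0.le
      apply norm_le_of (by norm_num)
      change -e.im * -e.im + (1 + e.re) * (1 + e.re) ≤ 2 ^ 2
      have := re_le_one he
      nlinarith
    have crx1 : cr e x1 = η * (1 + e.re) := by
      rw [hx1, cr_smul]
      have : cr e ⟨-e.im, 1 + e.re⟩ = e.re + (e.re * e.re + e.im * e.im) := by
        simp only [cr]; ring
      rw [this, hsq]; ring
    have imx1 : x1.im = η * (1 + e.re) := by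
      simp only [hx1, Complex.smul_im, smul_eq_mul]
    have hcx1 : c * ‖x1‖ < η * (1 + e.re) := by
      have h1 := mul_le_mul_of_nonneg_left nx1 hc0.le
      nlinarith [mul_nonneg hη0.le he1, mul_pos hη0 hc0]
    have hN : Cfg.cone 0 1 ρ c ⊆ C.Vp := by
      refine C.sub_Vp (Cfg.convex_cone 0 1 ρ hc0.le).isPreconnected ?_ (x := x2) ?_
        (C.GAp_Vp x2G)
      · rintro y ⟨hy1, hy2⟩ hU
        rw [sub_zero] at hy1 hy2
        rw [cr_one] at hy2
        rcases hU with (⟨t, rfl⟩ | h) | h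
        · obtain ⟨h1, h2⟩ := hβ t hy1
          rw [im_eq he (C.β t)] at hy2
          have h3 : dt e (C.β t) * e.im ≤ 0 := mul_nonpos_of_nonneg_of_nonpos h2 him
          have h4 : cr e (C.β t) * e.re ≤ c * ‖C.β t‖ := by
            have h5 := mul_le_mul_of_nonneg_right ((le_abs_self _).trans h1) he1
            have h6 := mul_le_mul_of_nonneg_left (re_le_one he)
              (mul_nonneg hc0.le (norm_nonneg (C.β t)))
            linarith
          linarith
        · rw [h.1] at hy2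
          have := mul_nonneg hc0.le (norm_nonneg y)
          linarith
        · have := S1_far h
          linarith
      · refine ⟨?_, ?_⟩
        · rw [sub_zero]; linarith
        · rw [sub_zero, cr_one]
          have e1 : x2.im = η := by simp only [hx2, Complex.smul_im, smul_eq_mul, mul_one]
          rw [e1]
          have h1 := mul_le_mul_of_nonneg_left nx2 hc0.le
          nlinarith
    have hx1N : x1 ∈ Cfg.cone 0 1 ρ c := by
      refine ⟨?_, ?_⟩
      · rw [sub_zero]; linarith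
      · rw [sub_zero, cr_one, imx1]; exact hcx1
    refine C.sub_Vp (Cfg.convex_cone 0 e ρ hc0.le).isPreconnected ?_ (x := x1) ?_ (hN hx1N) hzm
    · rintro y ⟨hy1, hy2⟩ hU
      rw [sub_zero] at hy1 hy2
      rcases hU with (⟨t, rfl⟩ | h) | h
      · have h1 := (hβ t hy1).1
        have h2 := le_abs_self (cr e (C.β t))
        linarith
      · have h1 := h.1
        have h2 := h.2
        simp only [cr, h1, mul_zero, zero_sub] at hy2
        have h3 := mul_nonneg hc0.le (norm_nonneg y)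
        nlinarith [mul_nonneg (neg_nonneg.2 him) (neg_nonneg.2 h2)]
      · have := S1_far h
        linarith
    · refine ⟨?_, ?_⟩
      · rw [sub_zero]; linarith
      · rw [sub_zero, crx1]; exact hcx1
  · have hzi : 0 < z.im := by
      rcases hz'' with h | h
      · linarith
      · exact h
    refine C.sub_Vp (S := Cfg.cone 0 e ρ c ∩ {z : ℂ | 0 < z.im})
      ((Cfg.convex_cone 0 e ρ hc0.le).inter (conv_im_gt 0)).isPreconnected ?_ (x := x2) ?_
      (C.GAp_Vp x2G) ⟨hzm, hzi⟩
    · rintro y ⟨⟨hy1, hy2⟩, hy3⟩ hU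
      rw [sub_zero] at hy1 hy2
      have hy3' : 0 < y.im := hy3
      rcases hU with (⟨t, rfl⟩ | h) | h
      · have h1 := (hβ t hy1).1
        have h2 := le_abs_self (cr e (C.β t))
        linarith
      · rw [h.1] at hy3'; exact lt_irrefl _ hy3'
      · rw [h.1] at hy3'; exact lt_irrefl _ hy3'
    · refine ⟨⟨?_, ?_⟩, x2G.2⟩
      · rw [sub_zero]; linarith
      · rw [sub_zero, hx2, cr_smul, ← hx2]
        have e1 : cr e ⟨-1, 1⟩ = e.re + e.im := by simp only [cr]; ring
        rw [e1]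
        have h1 := mul_le_mul_of_nonneg_left nx2 hc0.le
        have h2 : 1 ≤ e.re + e.im := by nlinarith
        nlinarith

/-- The lower corner. -/
lemma down {e : ℂ} {ρ c : ℝ} (hT : C.Thin e ρ c) (he : ‖e‖ = 1) (he1 : 0 ≤ e.re) {z : ℂ}
    (hz : ‖z‖ < ρ) (hz' : cr e z < -(c * ‖z‖)) (hz'' : 0 ≤ e.im ∨ z.im < 0) : z ∉ C.Vp := by
  obtain ⟨hρ0, hc0, hc4, hρℓ, hβ⟩ := hT
  have hsq := e_sq he
  set η : ℝ := ρ / 4 with hη
  have hη0 : 0 < η := by positivity
  have hzm : z ∈ Cfg.coneM 0 e ρ c := ⟨by rw [sub_zero]; exact hz, by rw [sub_zero]; exact hz'⟩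
  -- the last link
  set x2 : ℂ := η • (⟨-1, -1⟩ : ℂ) with hx2
  have nx2 : ‖x2‖ ≤ η * 2 := by
    apply norm_smul_le hη0.le
    apply norm_le_of (by norm_num)
    norm_num
  have x2G : x2 ∈ GAm := by
    refine ⟨?_, ?_⟩
    · simp only [hx2, Complex.smul_re, smul_eq_mul]; linarith
    · simp only [hx2, Complex.smul_im, smul_eq_mul]; linarith
  rcases le_or_gt 0 e.im with him | him
  · set x1 : ℂ := η • (⟨e.im, -(1 + e.re)⟩ : ℂ) with hx1
    have nx1 : ‖x1‖ ≤ η * 2 := by
      apply norm_smul_le hη0.le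
      apply norm_le_of (by norm_num)
      change e.im * e.im + -(1 + e.re) * -(1 + e.re) ≤ 2 ^ 2
      have := re_le_one he
      nlinarith
    have crx1 : cr e x1 = -(η * (1 + e.re)) := by
      rw [hx1, cr_smul]
      have : cr e ⟨e.im, -(1 + e.re)⟩ = -(e.re + (e.re * e.re + e.im * e.im)) := by
        simp only [cr]; ring
      rw [this, hsq]; ring
    have imx1 : x1.im = -(η * (1 + e.re)) := by
      simp only [hx1, Complex.smul_im, smul_eq_mul]; ring
    have hcx1 : c * ‖x1‖ < η * (1 + e.re) := by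
      have h1 := mul_le_mul_of_nonneg_left nx1 hc0.le
      nlinarith [mul_nonneg hη0.le he1, mul_pos hη0 hc0]
    have hN : ∀ y ∈ Cfg.coneM 0 1 ρ c, y ∉ C.Vp := by
      intro y0 hy0
      refine C.not_Vp (Cfg.convex_coneM 0 1 ρ hc0.le).isPreconnected ?_ (x := x2) ?_
        (C.GAm_Vp x2G) hy0
      · rintro y ⟨hy1, hy2⟩ hU
        rw [sub_zero] at hy1 hy2
        rw [cr_one] at hy2
        rcases hU with (⟨t, rfl⟩ | h) | h
        · obtain ⟨h1, h2⟩ := hβ t hy1
          rw [im_eq he (C.β t)] at hy2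
          have h3 : 0 ≤ dt e (C.β t) * e.im := mul_nonneg h2 him
          have h4 : -(c * ‖C.β t‖) ≤ cr e (C.β t) * e.re := by
            have h5 := mul_le_mul_of_nonneg_right
              ((neg_le_of_abs_le h1 : -(c * ‖C.β t‖) ≤ cr e (C.β t))) he1
            have h6 := mul_le_mul_of_nonneg_left (re_le_one he)
              (mul_nonneg hc0.le (norm_nonneg (C.β t)))
            linarith
          linarith
        · rw [h.1] at hy2
          have := mul_nonneg hc0.le (norm_nonneg y)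
          linarith
        · have := S1_far h
          linarith
      · refine ⟨?_, ?_⟩
        · rw [sub_zero]; linarith
        · rw [sub_zero, cr_one]
          have e1 : x2.im = -η := by
            simp only [hx2, Complex.smul_im, smul_eq_mul]; ring
          rw [e1]
          have h1 := mul_le_mul_of_nonneg_left nx2 hc0.le
          nlinarith
    have hx1N : x1 ∈ Cfg.coneM 0 1 ρ c := by
      refine ⟨?_, ?_⟩
      · rw [sub_zero]; linarith
      · rw [sub_zero, cr_one, imx1]; linarith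
    refine C.not_Vp (Cfg.convex_coneM 0 e ρ hc0.le).isPreconnected ?_ (x := x1) ?_ (hN x1 hx1N)
      hzm
    · rintro y ⟨hy1, hy2⟩ hU
      rw [sub_zero] at hy1 hy2
      rcases hU with (⟨t, rfl⟩ | h) | h
      · have h1 := (hβ t hy1).1
        have h2 := neg_abs_le (cr e (C.β t))
        linarith
      · have h1 := h.1
        have h2 := h.2
        simp only [cr, h1, mul_zero, zero_sub] at hy2
        have h3 := mul_nonneg hc0.le (norm_nonneg y)
        nlinarith [mul_nonneg him (neg_nonneg.2 h2)]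
      · have := S1_far h
        linarith
    · refine ⟨?_, ?_⟩
      · rw [sub_zero]; linarith
      · rw [sub_zero, crx1]; linarith
  · have hzi : z.im < 0 := by
      rcases hz'' with h | h
      · linarith
      · exact h
    refine C.not_Vp (S := Cfg.coneM 0 e ρ c ∩ {z : ℂ | z.im < 0})
      ((Cfg.convex_coneM 0 e ρ hc0.le).inter (conv_im_lt 0)).isPreconnected ?_ (x := x2) ?_
      (C.GAm_Vp x2G) ⟨hzm, hzi⟩
    · rintro y ⟨⟨hy1, hy2⟩, hy3⟩ hU
      rw [sub_zero] at hy1 hy2
      have hy3' : y.im < 0 := hy3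
      rcases hU with (⟨t, rfl⟩ | h) | h
      · have h1 := (hβ t hy1).1
        have h2 := neg_abs_le (cr e (C.β t))
        linarith
      · rw [h.1] at hy3'; exact lt_irrefl _ hy3'
      · rw [h.1] at hy3'; exact lt_irrefl _ hy3'
    · refine ⟨⟨?_, ?_⟩, x2G.2⟩
      · rw [sub_zero]; linarith
      · rw [sub_zero, hx2, cr_smul, ← hx2]
        have e1 : cr e ⟨-1, -1⟩ = -(e.re - e.im) := by simp only [cr]; ring
        rw [e1]
        have h1 := mul_le_mul_of_nonneg_left nx2 hc0.le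
        have h2 : 1 ≤ e.re - e.im := by nlinarith
        nlinarith

end Cfg

end Pool.MP_7ec17a_gt.R
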